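import Pool.Agent.Y867.WC.GaK

/-! # Second moments over the coefficients, subsets of the integers -/

set_option autoImplicit false

open MeasureTheory Filter Finset
open scoped ENNReal Real

namespace Pool.Agent.Y867.WP

open Pool.Agent.W928.MW (e e_add e_norm e_cont)
open Pool.Agent.Y867.WR (sq_e e_int_le harm QB QB_meas mem_QB)
open Pool.Agent.Y867.WC (sm XX XX_card pow_sep GH GH_nonneg GH_cont GH_le1 GH_le2 alg1 alg2 plan GHS_int gd gq e_sum
  ex_int)

/-- second moment of the exponential sum over a coefficient in `[-A, A]` -/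
noncomputable def MX (j : ℕ) (X : Finset ℤ) (A α : ℝ) : ℝ := ∫ t in (-A)..A, ‖∑ x ∈ X, e (α * (t * (x : ℝ) ^ (j + 2)))‖ ^ 2

theorem MX_nonneg (j : ℕ) (X : Finset ℤ) (A α : ℝ) (hA : 0 ≤ A) : 0 ≤ MX j X A α :=
  intervalIntegral.integral_nonneg (by linarith) (fun t _ => by positivity)

theorem MX_le1 (j P C : ℕ) (X : Finset ℤ) (hX : X ⊆ XX P C) (A α : ℝ) (hP : 1 ≤ P) (hC : 1 ≤ C) (hA : 0 ≤ A) (hα : α ≠ 0) :
    MX j X A α ≤ (C * P : ℝ) * (2 * A + 2 * (1 + Real.log (C * P)) / (|α| * (P : ℝ) ^ (j + 1))) := by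
  have hP' : (0 : ℝ) < P := by exact_mod_cast hP
  have hα' : 0 < |α| := abs_pos.mpr hα
  have hsep : ∀ x ∈ XX P C, ∀ y ∈ XX P C, |(x : ℝ) - y| * (P : ℝ) ^ (j + 1) ≤ |(x : ℝ) ^ (j + 2) - (y : ℝ) ^ (j + 2)| := by
    intro x hx y hy
    have hx' := (Finset.mem_Icc.mp hx).1
    have hy' := (Finset.mem_Icc.mp hy).1
    exact pow_sep j P x y hP'.le (by exact_mod_cast hx') (by exact_mod_cast hy')
  have hd : ∀ x y : ℤ, x ≠ y → 0 < |(x : ℝ) - y| := by
    intro x y hxy
    rw [abs_pos, sub_ne_zero]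
    exact_mod_cast hxy
  unfold MX
  refine (sm X (fun x : ℤ => (x : ℝ) ^ (j + 2)) α A ?_ hα hA).trans ?_
  · intro x hx y hy hxy h
    have h1 := hsep x (hX hx) y (hX hy)
    rw [h, sub_self, abs_zero] at h1
    have h2 : 0 < |(x : ℝ) - y| * (P : ℝ) ^ (j + 1) := mul_pos (hd x y hxy) (by positivity)
    linarith
  · have hN : 1 ≤ C * P := Nat.mul_pos hC hP
    have h1 : ∀ x ∈ X, ∑ y ∈ X, (if x = y then 2 * A else 1 / |α * ((x : ℝ) ^ (j + 2) - (y : ℝ) ^ (j + 2))|) ≤
        2 * A + 2 * (1 + Real.log (C * P)) / (|α| * (P : ℝ) ^ (j + 1)) := by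
      intro x hx
      refine (Finset.sum_le_sum_of_subset_of_nonneg hX (fun y _ _ => by split_ifs <;> positivity)).trans ?_
      have hx := hX hx
      rw [← Finset.sum_filter_add_sum_filter_not (XX P C) (fun y => x = y)]
      apply add_le_add
      · rw [Finset.sum_congr rfl (fun y hy => if_pos (Finset.mem_filter.mp hy).2), Finset.filter_eq, if_pos hx,
          Finset.sum_singleton]
      · have h2 : ∀ y ∈ (XX P C).filter (fun y => ¬ x = y), (if x = y then 2 * A else
            1 / |α * ((x : ℝ) ^ (j + 2) - (y : ℝ) ^ (j + 2))|) ≤ 1 / (|α| * (P : ℝ) ^ (j + 1)) * (1 / |(x : ℝ) - y|) := by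
          intro y hy
          have hy' := Finset.mem_filter.mp hy
          rw [if_neg hy'.2, one_div_mul_one_div]
          apply one_div_le_one_div_of_le
          · have := hd x y hy'.2
            positivity
          · rw [abs_mul]
            calc |α| * (P : ℝ) ^ (j + 1) * |(x : ℝ) - y| = |α| * (|(x : ℝ) - y| * (P : ℝ) ^ (j + 1)) := by ring
              _ ≤ _ := mul_le_mul_of_nonneg_left (hsep x hx y hy'.1) hα'.le
        refine (Finset.sum_le_sum h2).trans ?_
        rw [← Finset.mul_sum]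
        have h3 : ∑ y ∈ (XX P C).filter (fun y => ¬ x = y), 1 / |(x : ℝ) - y| ≤
            2 * (1 + Real.log ((C * P : ℕ) : ℝ)) := harm (P : ℤ) ((C * P : ℕ) : ℤ) (C * P) hN (by omega) x hx
        rw [Nat.cast_mul] at h3
        calc 1 / (|α| * (P : ℝ) ^ (j + 1)) * ∑ y ∈ (XX P C).filter (fun y => ¬ x = y), 1 / |(x : ℝ) - y| ≤
              1 / (|α| * (P : ℝ) ^ (j + 1)) * (2 * (1 + Real.log (C * P))) := by
              exact mul_le_mul_of_nonneg_left h3 (by positivity)
          _ = _ := by ring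
    refine (Finset.sum_le_sum h1).trans ?_
    rw [Finset.sum_const, nsmul_eq_mul]
    apply mul_le_mul_of_nonneg_right
    · exact (Nat.cast_le.mpr (Finset.card_le_card hX)).trans (XX_card P C hP)
    · have h4 : 0 ≤ Real.log (C * P) := Real.log_nonneg (by exact_mod_cast hN)
      positivity

theorem MX_le2 (j P C : ℕ) (X : Finset ℤ) (hX : X ⊆ XX P C) (A α : ℝ) (hP : 1 ≤ P) (hA : 0 ≤ A) :
    MX j X A α ≤ 2 * A * (C * P : ℝ) ^ 2 := by
  have h1 : ∀ t : ℝ, ‖∑ x ∈ X, e (α * (t * (x : ℝ) ^ (j + 2)))‖ ^ 2 ≤ (C * P : ℝ) ^ 2 := by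
    intro t
    have h0 : ‖∑ x ∈ X, e (α * (t * (x : ℝ) ^ (j + 2)))‖ ≤ (C * P : ℝ) := by
      refine (norm_sum_le _ _).trans ?_
      rw [Finset.sum_congr rfl (fun x _ => e_norm _), Finset.sum_const, nsmul_eq_mul, mul_one]
      exact (Nat.cast_le.mpr (Finset.card_le_card hX)).trans (XX_card P C hP)
    exact pow_le_pow_left₀ (norm_nonneg _) h0 2
  have h2 : ‖∫ t in (-A)..A, ‖∑ x ∈ X, e (α * (t * (x : ℝ) ^ (j + 2)))‖ ^ 2‖ ≤ (C * P : ℝ) ^ 2 * |A - -A| := by
    apply intervalIntegral.norm_integral_le_of_norm_le_const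
    intro t _
    rw [Real.norm_eq_abs, abs_of_nonneg (by positivity)]
    exact h1 t
  have h3 : MX j X A α ≤ (C * P : ℝ) ^ 2 * |A - -A| := (le_abs_self _).trans h2
  refine h3.trans ?_
  rw [sub_neg_eq_add, abs_of_nonneg (by linarith)]
  apply le_of_eq
  ring

/-- the integral of a product over a box -/
theorem box_prods (n : ℕ) (A : ℝ) (hA : 0 ≤ A) (f : Fin n → ℝ → ℝ) (hf : ∀ i, Continuous (f i)) (h0 : ∀ i t, 0 ≤ f i t) :
    ∫⁻ θ in QB n A, ENNReal.ofReal (∏ i, f i (θ i)) = ENNReal.ofReal (∏ i, ∫ t in (-A)..A, f i t) := by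
  have hc : Continuous (fun θ : Fin n → ℝ => ∏ i, f i (θ i)) := by
    apply continuous_finsetProd
    intro i _
    exact (hf i).comp (continuous_apply i)
  have hcomp : IsCompact (QB n A) := isCompact_Icc
  have hint : IntegrableOn (fun θ : Fin n → ℝ => ∏ i, f i (θ i)) (QB n A) volume :=
    ContinuousOn.integrableOn_compact hcomp hc.continuousOn
  rw [← ofReal_integral_eq_lintegral_ofReal hint
    (Eventually.of_forall fun θ => Finset.prod_nonneg fun i _ => h0 _ _)]
  congr 1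
  rw [← integral_indicator (QB_meas n A)]
  have h1 : (QB n A).indicator (fun θ : Fin n → ℝ => ∏ i, f i (θ i)) =
      fun θ : Fin n → ℝ => ∏ i, (Set.Icc (-A) A).indicator (f i) (θ i) := by
    funext θ
    by_cases h : θ ∈ QB n A
    · rw [Set.indicator_of_mem h]
      apply Finset.prod_congr rfl
      intro i _
      rw [Set.indicator_of_mem]
      have := (mem_QB n A θ).mp h i
      exact abs_le.mp this
    · rw [Set.indicator_of_notMem h]
      rw [mem_QB] at h
      push Not at h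
      obtain ⟨i, hi⟩ := h
      symm
      apply Finset.prod_eq_zero (Finset.mem_univ i)
      rw [Set.indicator_of_notMem]
      intro h2
      exact absurd (abs_le.mpr h2) (not_le.mpr hi)
  rw [h1, integral_fintype_prod_volume_eq_prod (fun i => (Set.Icc (-A) A).indicator (f i))]
  apply Finset.prod_congr rfl
  intro i _
  rw [integral_indicator measurableSet_Icc, integral_Icc_eq_integral_Ioc, ← intervalIntegral.integral_of_le (by linarith)]

end Pool.Agent.Y867.WP
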