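import Pool.Agent.Y867.WP.PaA

/-! # The mean square: one integer variable, the others in subsets -/

set_option autoImplicit false

open MeasureTheory Filter Finset
open scoped ENNReal Real

namespace Pool.Agent.Y867.WP

open Pool.Agent.W928.MW (e e_add e_norm e_cont)
open Pool.Agent.Y867.WR (sq_e e_int_le harm QB QB_meas mem_QB)
open Pool.Agent.Y867.WC (sm XX XX_card pow_sep GH GH_nonneg GH_cont GH_le1 GH_le2 alg1 alg2 plan GHS_int gd gq e_sum
  ex_int F BX)

/-- the primes of the range -/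
noncomputable def PR (P C : ℕ) : Finset ℤ := (XX P C).filter (fun x => Nat.Prime x.toNat)

/-- the range of the `i`-th variable -/
noncomputable def XP (n P C : ℕ) (i : Fin n) : Finset ℤ := if i.val = 0 then XX P C else PR P C

theorem XP_sub (n P C : ℕ) (i : Fin n) : XP n P C i ⊆ XX P C := by
  unfold XP
  split_ifs
  · exact Finset.Subset.refl _
  · exact Finset.filter_subset _ _

/-- the box of variables -/
noncomputable def BP (n P C : ℕ) : Finset (Fin n → ℤ) := Fintype.piFinset (XP n P C)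

theorem BP_card (n P C : ℕ) (hP : 1 ≤ P) : ((BP n P C).card : ℝ) ≤ ((C : ℝ) * P) ^ n := by
  have h1 : BP n P C ⊆ BX n P C := by
    unfold BP BX
    exact Fintype.piFinset_subset _ _ (fun i => XP_sub n P C i)
  exact (Nat.cast_le.mpr (Finset.card_le_card h1)).trans (Pool.Agent.Y867.WC.BX_card n P C hP)

/-- mean square of the difference of the smoothed counts -/
noncomputable def Jp (j n P C : ℕ) (q Q : ℝ) (θ : Fin n → ℝ) : ℝ :=
  ∫ τ, (∑ x ∈ BP n P C, gd q Q (F j n θ x - τ)) ^ 2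

theorem Sp_prod (j n P C : ℕ) (θ : Fin n → ℝ) (α : ℝ) :
    ∑ x ∈ BP n P C, e (α * F j n θ x) = ∏ i, ∑ x ∈ XP n P C i, e (α * (θ i * (x : ℝ) ^ (j + 2))) := by
  unfold BP
  rw [Finset.prod_univ_sum]
  apply Finset.sum_congr rfl
  intro x _
  unfold F
  rw [Finset.mul_sum, e_sum]

theorem msq1p (j n P C : ℕ) (A q Q : ℝ) (hA : 0 ≤ A) (hq : 0 < q) (hQ : 0 < Q) :
    ∫⁻ θ in QB n A, ENNReal.ofReal (Jp j n P C q Q θ) =
      ∫⁻ α : ℝ, ENNReal.ofReal (GH q Q α * ∏ i, MX j (XP n P C i) A α) := by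
  have h1 : ∀ θ : Fin n → ℝ, ENNReal.ofReal (Jp j n P C q Q θ) =
      ∫⁻ α : ℝ, ENNReal.ofReal (GH q Q α * ∏ i, ‖∑ x ∈ XP n P C i, e (α * (θ i * (x : ℝ) ^ (j + 2)))‖ ^ 2) := by
    intro θ
    unfold Jp
    rw [(plan (BP n P C) (F j n θ) q Q hq hQ).2,
      ofReal_integral_eq_lintegral_ofReal (GHS_int (BP n P C) (F j n θ) q Q hq hQ)
        (Eventually.of_forall fun α => mul_nonneg (GH_nonneg _ _ _) (by positivity))]
    apply lintegral_congr
    intro α
    rw [Sp_prod, norm_prod, Finset.prod_pow]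
  simp_rw [h1]
  have hc : Continuous (fun p : (Fin n → ℝ) × ℝ => GH q Q p.2 *
      ∏ i, ‖∑ x ∈ XP n P C i, e (p.2 * (p.1 i * (x : ℝ) ^ (j + 2)))‖ ^ 2) := by
    apply ((GH_cont q Q).comp continuous_snd).mul
    apply continuous_finsetProd
    intro i _
    apply Continuous.pow
    apply Continuous.norm
    apply continuous_finsetSum
    intro x _
    exact e_cont.comp (by fun_prop)
  rw [lintegral_lintegral_swap (hc.measurable.ennreal_ofReal.aemeasurable)]
  apply lintegral_congr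
  intro α
  have hcα : ∀ i : Fin n, Continuous (fun t : ℝ => ‖∑ x ∈ XP n P C i, e (α * (t * (x : ℝ) ^ (j + 2)))‖ ^ 2) := by
    intro i
    apply Continuous.pow
    apply Continuous.norm
    apply continuous_finsetSum
    intro x _
    exact e_cont.comp (by fun_prop)
  have h2 := box_prods n A hA (fun i t => ‖∑ x ∈ XP n P C i, e (α * (t * (x : ℝ) ^ (j + 2)))‖ ^ 2) hcα
    (fun i t => by positivity)
  simp_rw [ENNReal.ofReal_mul (GH_nonneg q Q α)]
  rw [lintegral_const_mul' _ _ ENNReal.ofReal_ne_top, h2]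
  rfl

theorem ptp (j P C : ℕ) (A CH q : ℝ) (hP : 1 ≤ P) (hC : 1 ≤ C) (hA : 1 ≤ A) (hCH : 1 ≤ CH) (hq : 0 < q) (hq1 : q ≤ 1)
    (α : ℝ) (V : ℝ) (hα : α ≠ 0) (hM0 : 0 ≤ V)
    (hM1 : V ≤ (C * P : ℝ) * (2 * A + 2 * (1 + Real.log (C * P)) / (|α| * (P : ℝ) ^ (j + 1))))
    (hM2 : V ≤ 2 * A * (C * P : ℝ) ^ 2) :
    GH q ((CH * (P : ℝ) ^ (j + 1)) ^ 2) α * V ^ (j + 3) ≤
      (4 * A * C ^ 2 * (1 + Real.log (C * P))) ^ (j + 3) * ((P : ℝ) ^ (j + 3) * Real.exp (-(π * (q + q) * α ^ 2)) +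
        (if |α| * (P : ℝ) ^ (j + 1) ≤ 1 then π ^ 2 * CH ^ 4 * (P : ℝ) ^ (2 * j + 3) else 0)) := by
  have hP' : (1 : ℝ) ≤ P := by exact_mod_cast hP
  have hC' : (1 : ℝ) ≤ C := by exact_mod_cast hC
  have hl : 0 ≤ Real.log (C * P) := Real.log_nonneg (one_le_mul_of_one_le_of_one_le hC' hP')
  set l := 1 + Real.log (C * P) with hl_def
  have hl1 : 1 ≤ l := by linarith
  have hα' : 0 < |α| := abs_pos.mpr hα
  have hPj : 1 ≤ (P : ℝ) ^ (j + 1) := one_le_pow₀ hP'
  set w := |α| * (P : ℝ) ^ (j + 1) with hw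
  have hw0 : 0 < w := by positivity
  have hqQ : q ≤ (CH * (P : ℝ) ^ (j + 1)) ^ 2 := by
    refine hq1.trans ?_
    exact one_le_pow₀ (one_le_mul_of_one_le_of_one_le hCH hPj)
  have hpi := Real.pi_pos
  have hCC : (C : ℝ) ≤ (C : ℝ) ^ 2 := by
    rw [sq]
    exact le_mul_of_one_le_left (by linarith) hC'
  by_cases h : w ≤ 1
  · rw [if_pos h]
    have h1 : V ≤ (4 * A * C ^ 2 * l) * (P / w) := by
      refine hM1.trans ?_
      have h2 : 2 * A + 2 * l / w ≤ 4 * A * l / w := by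
        rw [← sub_nonneg]
        have h3 : 4 * A * l / w - (2 * A + 2 * l / w) = (4 * A * l - 2 * A * w - 2 * l) / w := by
          field_simp
          ring
        rw [h3]
        apply div_nonneg _ hw0.le
        have h6 : A * w ≤ A * l := mul_le_mul_of_nonneg_left (h.trans hl1) (by linarith)
        have h7 : 1 * l ≤ A * l := mul_le_mul_of_nonneg_right hA (by linarith)
        linarith
      calc (C * P : ℝ) * (2 * A + 2 * l / w) ≤ (C * P : ℝ) * (4 * A * l / w) :=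
            mul_le_mul_of_nonneg_left h2 (by positivity)
        _ = (4 * A * C * l) * (P / w) := by ring
        _ ≤ (4 * A * C ^ 2 * l) * (P / w) := by
            apply mul_le_mul_of_nonneg_right _ (by positivity)
            apply mul_le_mul_of_nonneg_right _ (by linarith)
            apply mul_le_mul_of_nonneg_left hCC (by linarith)
    have h2 : V ≤ (4 * A * C ^ 2 * l) * P ^ 2 := by
      refine hM2.trans ?_
      have h3 : 0 ≤ A * C ^ 2 * (P : ℝ) ^ 2 := by positivity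
      calc 2 * A * (C * P : ℝ) ^ 2 = 2 * (A * C ^ 2 * (P : ℝ) ^ 2) := by ring
        _ ≤ 4 * l * (A * C ^ 2 * (P : ℝ) ^ 2) := mul_le_mul_of_nonneg_right (by linarith) h3
        _ = _ := by ring
    have hK : 0 ≤ 4 * A * (C : ℝ) ^ 2 * l := by positivity
    have h3 := alg1 j V (4 * A * C ^ 2 * l) P w hM0 hK hw0 h1 h2
    have h4 : GH q ((CH * (P : ℝ) ^ (j + 1)) ^ 2) α ≤ π ^ 2 * CH ^ 4 * w ^ 4 := by
      refine (GH_le2 _ _ α hq.le hqQ).trans (le_of_eq ?_)
      have h5 : α ^ 2 = |α| ^ 2 := (sq_abs α).symm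
      rw [h5, hw]
      ring
    have h5 : GH q ((CH * (P : ℝ) ^ (j + 1)) ^ 2) α * V ^ (j + 3) ≤
        (π ^ 2 * CH ^ 4 * w ^ 4) * ((4 * A * C ^ 2 * l) ^ (j + 3) * ((P : ℝ) ^ (2 * j + 3) / w ^ 3)) :=
      mul_le_mul h4 h3 (pow_nonneg hM0 _) (by positivity)
    have h6 := alg2 (π ^ 2 * CH ^ 4) ((4 * A * C ^ 2 * l) ^ (j + 3)) ((P : ℝ) ^ (2 * j + 3)) w hw0 h (by positivity)
      (pow_nonneg hK _) (by positivity)
    refine (h5.trans h6).trans ?_
    apply mul_le_mul_of_nonneg_left _ (pow_nonneg hK _)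
    have h7 : 0 ≤ (P : ℝ) ^ (j + 3) * Real.exp (-(π * (q + q) * α ^ 2)) := by positivity
    linarith
  · rw [if_neg h, add_zero]
    push Not at h
    have h1 : V ≤ (4 * A * C ^ 2 * l) * P := by
      refine hM1.trans ?_
      have h2 : 2 * l / w ≤ 2 * l := div_le_self (by linarith) h.le
      have h3 : 2 * A + 2 * l / w ≤ 4 * A * l := by
        have h6 : A * 1 ≤ A * l := mul_le_mul_of_nonneg_left hl1 (by linarith)
        have h7 : 1 * l ≤ A * l := mul_le_mul_of_nonneg_right hA (by linarith)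
        linarith
      calc (C * P : ℝ) * (2 * A + 2 * l / w) ≤ (C * P : ℝ) * (4 * A * l) := mul_le_mul_of_nonneg_left h3 (by positivity)
        _ = (4 * A * C * l) * P := by ring
        _ ≤ (4 * A * C ^ 2 * l) * P := by
            apply mul_le_mul_of_nonneg_right _ (by positivity)
            apply mul_le_mul_of_nonneg_right _ (by linarith)
            apply mul_le_mul_of_nonneg_left hCC (by linarith)
    have h2 : V ^ (j + 3) ≤ (4 * A * C ^ 2 * l) ^ (j + 3) * (P : ℝ) ^ (j + 3) := by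
      rw [← mul_pow]
      exact pow_le_pow_left₀ hM0 h1 _
    calc GH q ((CH * (P : ℝ) ^ (j + 1)) ^ 2) α * V ^ (j + 3) ≤
          Real.exp (-(π * (q + q) * α ^ 2)) * ((4 * A * C ^ 2 * l) ^ (j + 3) * (P : ℝ) ^ (j + 3)) :=
          mul_le_mul (GH_le1 _ _ α hqQ) h2 (pow_nonneg hM0 _) (Real.exp_pos _).le
      _ = _ := by ring

/-- the mean square bound -/
theorem msq2p (j P C : ℕ) (A CH q : ℝ) (hP : 1 ≤ P) (hC : 1 ≤ C) (hA : 1 ≤ A) (hCH : 1 ≤ CH) (hq : 0 < q) (hq1 : q ≤ 1) :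
    ∫⁻ θ in QB (j + 3) A, ENNReal.ofReal (Jp j (j + 3) P C q ((CH * (P : ℝ) ^ (j + 1)) ^ 2) θ) ≤
      ENNReal.ofReal ((4 * A * C ^ 2 * (1 + Real.log (C * P))) ^ (j + 3) * (1 + 2 * π ^ 2 * CH ^ 4) *
        ((P : ℝ) ^ (j + 3) / √q)) := by
  have hP' : (1 : ℝ) ≤ P := by exact_mod_cast hP
  have hC' : (1 : ℝ) ≤ C := by exact_mod_cast hC
  have hl : 0 ≤ Real.log (C * P) := Real.log_nonneg (one_le_mul_of_one_le_of_one_le hC' hP')
  have hpi := Real.pi_pos
  have hPj : 1 ≤ (P : ℝ) ^ (j + 1) := one_le_pow₀ hP'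
  rw [msq1p j (j + 3) P C A q _ (by linarith) hq (by positivity)]
  set D := (4 * A * C ^ 2 * (1 + Real.log (C * P))) ^ (j + 3) with hD
  have hD0 : 0 ≤ D := by positivity
  set g : ℝ → ℝ := fun α => D * ((P : ℝ) ^ (j + 3) * Real.exp (-(π * (q + q) * α ^ 2)) +
        (if |α| * (P : ℝ) ^ (j + 1) ≤ 1 then π ^ 2 * CH ^ 4 * (P : ℝ) ^ (2 * j + 3) else 0)) with hg
  have h0 : ∀ᵐ α : ℝ, α ≠ 0 := by
    rw [ae_iff]
    simp
  have h1 : ∫⁻ α : ℝ, ENNReal.ofReal (GH q ((CH * (P : ℝ) ^ (j + 1)) ^ 2) α * ∏ i, MX j (XP (j + 3) P C i) A α) ≤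
      ∫⁻ α : ℝ, ENNReal.ofReal (g α) := by
    apply lintegral_mono_ae
    filter_upwards [h0] with α hα
    apply ENNReal.ofReal_le_ofReal
    set V : ℝ := max (MX j (XX P C) A α) (MX j (PR P C) A α) with hV
    have hV0 : 0 ≤ V := (MX_nonneg j _ A α (by linarith)).trans (le_max_left _ _)
    have hprod : ∏ i, MX j (XP (j + 3) P C i) A α ≤ V ^ (j + 3) := by
      have h2 : ∏ i, MX j (XP (j + 3) P C i) A α ≤ ∏ _i : Fin (j + 3), V := by
        apply Finset.prod_le_prod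
        · intro i _
          exact MX_nonneg j _ A α (by linarith)
        · intro i _
          unfold XP
          split_ifs
          · exact le_max_left _ _
          · exact le_max_right _ _
      refine h2.trans (le_of_eq ?_)
      rw [Finset.prod_const, Finset.card_univ, Fintype.card_fin]
    refine (mul_le_mul_of_nonneg_left hprod (GH_nonneg _ _ _)).trans ?_
    exact ptp j P C A CH q hP hC hA hCH hq hq1 α V hα hV0
      (max_le (MX_le1 j P C _ (Finset.Subset.refl _) A α hP hC (by linarith) hα)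
        (MX_le1 j P C _ (Finset.filter_subset _ _) A α hP hC (by linarith) hα))
      (max_le (MX_le2 j P C _ (Finset.Subset.refl _) A α hP (by linarith))
        (MX_le2 j P C _ (Finset.filter_subset _ _) A α hP (by linarith)))
  refine h1.trans ?_
  set r : ℝ := 1 / (P : ℝ) ^ (j + 1) with hr
  have hr0 : 0 < r := by positivity
  have hind : ∀ α : ℝ, (if |α| * (P : ℝ) ^ (j + 1) ≤ 1 then π ^ 2 * CH ^ 4 * (P : ℝ) ^ (2 * j + 3) else 0) =
      (Set.Icc (-r) r).indicator (fun _ => π ^ 2 * CH ^ 4 * (P : ℝ) ^ (2 * j + 3)) α := by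
    intro α
    rw [Set.indicator_apply]
    apply if_congr _ rfl rfl
    rw [Set.mem_Icc, ← abs_le, hr, le_div_iff₀ (by positivity)]
  have i1 : Integrable (fun α : ℝ => (P : ℝ) ^ (j + 3) * Real.exp (-(π * (q + q) * α ^ 2))) :=
    (ex_int (q + q) (by positivity)).const_mul _
  have i2 : Integrable ((Set.Icc (-r) r).indicator (fun _ : ℝ => π ^ 2 * CH ^ 4 * (P : ℝ) ^ (2 * j + 3))) := by
    rw [integrable_indicator_iff measurableSet_Icc]
    exact integrableOn_const (by simp)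
  have i3 : Integrable g := by
    have h2 := (i1.add i2).const_mul D
    refine h2.congr (Eventually.of_forall fun α => ?_)
    simp only [Pi.add_apply, hg, hind]
  have hg0 : ∀ α, 0 ≤ g α := by
    intro α
    simp only [hg]
    split_ifs <;> positivity
  rw [← ofReal_integral_eq_lintegral_ofReal i3 (Eventually.of_forall hg0)]
  apply ENNReal.ofReal_le_ofReal
  have h2 : ∫ α, g α = D * ((P : ℝ) ^ (j + 3) * √(1 / (q + q)) + 2 * r * (π ^ 2 * CH ^ 4 * (P : ℝ) ^ (2 * j + 3))) := by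
    simp only [hg]
    rw [integral_const_mul]
    simp_rw [hind]
    rw [integral_add i1 i2, integral_const_mul, integral_indicator measurableSet_Icc, setIntegral_const]
    congr 2
    · congr 1
      have h3 : ∫ α : ℝ, Real.exp (-(π * (q + q) * α ^ 2)) = ∫ α : ℝ, Real.exp (-(π * (q + q)) * α ^ 2) := by
        congr 1
        funext α
        congr 1
        ring
      rw [h3, integral_gaussian]
      congr 1
      field_simp
    · rw [smul_eq_mul, measureReal_def, Real.volume_Icc, ENNReal.toReal_ofReal (by linarith)]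
      ring
  rw [h2]
  have h3 : √(1 / (q + q)) ≤ 1 / √q := by
    rw [Real.sqrt_div zero_le_one, Real.sqrt_one]
    apply one_div_le_one_div_of_le (Real.sqrt_pos.mpr hq)
    exact Real.sqrt_le_sqrt (by linarith)
  have h4 : r * (P : ℝ) ^ (2 * j + 3) = (P : ℝ) ^ (j + 2) := by
    rw [hr, show 2 * j + 3 = (j + 1) + (j + 2) by ring, pow_add (P : ℝ) (j + 1) (j + 2), one_div, ← mul_assoc,
      inv_mul_cancel₀ (by positivity), one_mul]
  have h5 : (P : ℝ) ^ (j + 2) ≤ (P : ℝ) ^ (j + 3) / √q := by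
    have h6 : √q ≤ 1 := Real.sqrt_le_one.mpr hq1
    calc (P : ℝ) ^ (j + 2) ≤ (P : ℝ) ^ (j + 3) := pow_le_pow_right₀ hP' (by omega)
      _ ≤ (P : ℝ) ^ (j + 3) / √q := by
          rw [le_div_iff₀ (Real.sqrt_pos.mpr hq)]
          exact mul_le_of_le_one_right (by positivity) h6
  rw [mul_assoc D]
  apply mul_le_mul_of_nonneg_left _ hD0
  calc (P : ℝ) ^ (j + 3) * √(1 / (q + q)) + 2 * r * (π ^ 2 * CH ^ 4 * (P : ℝ) ^ (2 * j + 3))
      = (P : ℝ) ^ (j + 3) * √(1 / (q + q)) + 2 * π ^ 2 * CH ^ 4 * (r * (P : ℝ) ^ (2 * j + 3)) := by ring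
    _ ≤ (P : ℝ) ^ (j + 3) * (1 / √q) + 2 * π ^ 2 * CH ^ 4 * ((P : ℝ) ^ (j + 3) / √q) := by
        rw [h4]
        exact add_le_add (mul_le_mul_of_nonneg_left h3 (by positivity)) (mul_le_mul_of_nonneg_left h5 (by positivity))
    _ = _ := by ring

end Pool.Agent.Y867.WP
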