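import Pool.Agent.Y867.WP.PaB

/-! # The coarse count: one integer variable, the others prime -/

set_option autoImplicit false

open MeasureTheory Filter Finset
open scoped ENNReal Real

namespace Pool.Agent.Y867.WP

open Pool.Agent.Y867.WR (QB QB_meas mem_QB)
open Pool.Agent.Y867.WC (XX XX_card root F gq gq_cont gq_pos gq_small gq_big gd plan)

/-- the coarse count -/
theorem coarse_p (j P C A U : ℕ) (θ : Fin (j + 3) → ℝ) (τ : ℝ) (hP : 1 ≤ P) (hA : 1 ≤ A) (hC : C = A * U) (hU : 2 ≤ U)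
    (h1 : ∀ i, 1 / (A : ℝ) ≤ θ i) (h2 : ∀ i, θ i ≤ A)
    (h3 : (((j + 2) * A * 2 ^ (j + 2) + A : ℕ) : ℝ) * (P : ℝ) ^ (j + 2) ≤ τ) (h4 : τ ≤ (U : ℝ) * (P : ℝ) ^ (j + 2)) :
    ((PR P 2).card : ℝ) ^ (j + 2) ≤ (((BP (j + 3) P C).filter (fun x => |F j (j + 3) θ x - τ| ≤
      ((A : ℝ) * (j + 2) * (C : ℝ) ^ (j + 1)) * (P : ℝ) ^ (j + 1))).card : ℝ) := by
  classical
  have hA' : (1 : ℝ) ≤ A := by exact_mod_cast hA
  have hP' : (1 : ℝ) ≤ P := by exact_mod_cast hP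
  have hC1 : 2 ≤ C := by
    rw [hC]
    nlinarith
  have h0 : ∀ i, 0 < θ i := fun i => lt_of_lt_of_le (by positivity) (h1 i)
  -- the choice of the first variable
  have key : ∀ y ∈ Fintype.piFinset (fun _ : Fin (j + 2) => PR P 2),
      ∃ x : ℤ, x ∈ XX P C ∧ |F j (j + 3) θ (Fin.cons x y) - τ| ≤
        ((A : ℝ) * (j + 2) * (C : ℝ) ^ (j + 1)) * (P : ℝ) ^ (j + 1) := by
    intro y hy
    rw [Fintype.mem_piFinset] at hy
    set S := ∑ i : Fin (j + 2), θ i.succ * (y i : ℝ) ^ (j + 2) with hS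
    have hy1 : ∀ i, (P : ℝ) ≤ y i ∧ (y i : ℝ) ≤ 2 * P := by
      intro i
      have h5 := hy i
      unfold PR XX at h5
      have h5 := Finset.mem_Icc.mp (Finset.mem_filter.mp h5).1
      constructor
      · exact_mod_cast h5.1
      · have h6 : (y i : ℝ) ≤ (((2 * P : ℕ) : ℤ) : ℝ) := by exact_mod_cast h5.2
        push_cast at h6
        exact h6
    have hS0 : 0 ≤ S := Finset.sum_nonneg fun i _ => by
      have := (hy1 i).1
      have h6 := (h0 i.succ).le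
      have h7 : (0 : ℝ) ≤ y i := by linarith
      positivity
    have hS1 : S ≤ ((j + 2 : ℕ) : ℝ) * (A * 2 ^ (j + 2)) * (P : ℝ) ^ (j + 2) := by
      have h5 : ∀ i : Fin (j + 2), θ i.succ * (y i : ℝ) ^ (j + 2) ≤ (A * 2 ^ (j + 2)) * (P : ℝ) ^ (j + 2) := by
        intro i
        have h6 : (y i : ℝ) ^ (j + 2) ≤ (2 * (P : ℝ)) ^ (j + 2) :=
          pow_le_pow_left₀ (by linarith [(hy1 i).1]) (hy1 i).2 _
        calc θ i.succ * (y i : ℝ) ^ (j + 2) ≤ A * (2 * (P : ℝ)) ^ (j + 2) :=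
              mul_le_mul (h2 _) h6 (pow_nonneg (by linarith [(hy1 i).1]) _) (by positivity)
          _ = _ := by rw [mul_pow]; ring
      refine (Finset.sum_le_sum fun i _ => h5 i).trans ?_
      rw [Finset.sum_const, Finset.card_univ, Fintype.card_fin, nsmul_eq_mul]
      apply le_of_eq
      ring
    have hlow : θ 0 * (P : ℝ) ^ (j + 2) ≤ τ - S := by
      have h5 : θ 0 * (P : ℝ) ^ (j + 2) ≤ A * (P : ℝ) ^ (j + 2) := mul_le_mul_of_nonneg_right (h2 0) (by positivity)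
      push_cast at h3 hS1
      have h6 : (((j : ℝ) + 2) * A * 2 ^ (j + 2) + A) * (P : ℝ) ^ (j + 2) =
        ((j : ℝ) + 2) * (A * 2 ^ (j + 2)) * (P : ℝ) ^ (j + 2) + A * (P : ℝ) ^ (j + 2) := by ring
      rw [h6] at h3
      linarith
    have hup : τ - S ≤ (U : ℝ) * (P : ℝ) ^ (j + 2) := by linarith
    have hUC : (U : ℝ) ≤ θ 0 * C := by
      have h5 := mul_le_mul_of_nonneg_right (h1 0) (by positivity : (0 : ℝ) ≤ C)
      refine le_trans (le_of_eq ?_) h5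
      rw [hC]
      push_cast
      field_simp
    obtain ⟨x, hx, hx'⟩ := root j P C A (θ 0) (τ - S) U hP (by omega) (h0 0) (h2 0) hlow hup hUC
    refine ⟨x, hx, ?_⟩
    have h5 : F j (j + 3) θ (Fin.cons x y) = θ 0 * (x : ℝ) ^ (j + 2) + S := by
      unfold F
      rw [Fin.sum_univ_succ]
      simp only [Fin.cons_zero, Fin.cons_succ]
      rw [hS]
    rw [h5]
    have h6 : θ 0 * (x : ℝ) ^ (j + 2) + S - τ = θ 0 * (x : ℝ) ^ (j + 2) - (τ - S) := by ring
    rw [h6]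
    exact hx'
  choose! f hf using key
  have hcard : (Fintype.piFinset (fun _ : Fin (j + 2) => PR P 2)).card ≤
      ((BP (j + 3) P C).filter (fun x => |F j (j + 3) θ x - τ| ≤
        ((A : ℝ) * (j + 2) * (C : ℝ) ^ (j + 1)) * (P : ℝ) ^ (j + 1))).card := by
    apply Finset.card_le_card_of_injOn (fun y : Fin (j + 2) → ℤ => (Fin.cons (f y) y : Fin (j + 3) → ℤ))
    · intro y hy
      have hy' : y ∈ Fintype.piFinset (fun _ : Fin (j + 2) => PR P 2) := hy
      have h5 := hf y hy'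
      simp only [Finset.coe_filter, Set.mem_ofPred_eq]
      refine ⟨?_, h5.2⟩
      unfold BP
      rw [Fintype.mem_piFinset]
      intro i
      refine Fin.cases ?_ ?_ i
      · rw [Fin.cons_zero]
        unfold XP
        rw [if_pos (by simp)]
        exact h5.1
      · intro i'
        rw [Fin.cons_succ]
        rw [Fintype.mem_piFinset] at hy'
        have h6 := hy' i'
        unfold XP
        rw [if_neg (by simp)]
        unfold PR XX at h6 ⊢
        rw [Finset.mem_filter] at h6 ⊢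
        refine ⟨?_, h6.2⟩
        have h7 := Finset.mem_Icc.mp h6.1
        rw [Finset.mem_Icc]
        refine ⟨h7.1, h7.2.trans ?_⟩
        exact_mod_cast Nat.mul_le_mul_right P hC1
    · intro y _ y' _ h
      exact (Fin.cons_inj.mp h).2
  rw [Fintype.card_piFinset_const] at hcard
  exact_mod_cast hcard

/-- bad targets -/
def Bp (j C L U P h q1 q2 : ℕ) : (i : ℕ) → (Fin (j + 3 + i) → ℝ) → Set ℝ
  | 0, θ => {τ | (L : ℝ) * (P : ℝ) ^ (j + 2) ≤ τ ∧ τ ≤ (U : ℝ) * (P : ℝ) ^ (j + 2) ∧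
      ∀ x ∈ BP (j + 3) P C, 1 / (2 : ℝ) ^ h ≤ |F j (j + 3) θ x - τ|}
  | (i + 1), (θ : Fin (j + 3 + i + 1) → ℝ) =>
      {τ | τ - θ 0 * (q1 : ℝ) ^ (j + 2) ∈ Bp j C L U P h q1 q2 i (Fin.tail θ) ∧
        τ - θ 0 * (q2 : ℝ) ^ (j + 2) ∈ Bp j C L U P h q1 q2 i (Fin.tail θ)}

theorem Bp_closed (j C L U P h q1 q2 i : ℕ) :
    IsClosed {p : (Fin (j + 3 + i) → ℝ) × ℝ | p.2 ∈ Bp j C L U P h q1 q2 i p.1} := by
  induction i with
  | zero =>
    have h1 : {p : (Fin (j + 3 + 0) → ℝ) × ℝ | p.2 ∈ Bp j C L U P h q1 q2 0 p.1} =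
        {p : (Fin (j + 3) → ℝ) × ℝ | (L : ℝ) * (P : ℝ) ^ (j + 2) ≤ p.2} ∩
        ({p : (Fin (j + 3) → ℝ) × ℝ | p.2 ≤ (U : ℝ) * (P : ℝ) ^ (j + 2)} ∩
        ⋂ x ∈ BP (j + 3) P C, {p : (Fin (j + 3) → ℝ) × ℝ | 1 / (2 : ℝ) ^ h ≤ |F j (j + 3) p.1 x - p.2|}) := by
      ext p
      simp only [Bp, Set.mem_ofPred_eq, Set.mem_inter_iff, Set.mem_iInter]
    rw [h1]
    refine (isClosed_le continuous_const continuous_snd).inter
      ((isClosed_le continuous_snd continuous_const).inter ?_)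
    refine isClosed_biInter fun x _ => isClosed_le continuous_const ?_
    unfold F
    fun_prop
  | succ i ih =>
    have hc : ∀ c : ℝ, Continuous (fun p : (Fin (j + 3 + i + 1) → ℝ) × ℝ =>
        ((Fin.tail p.1 : Fin (j + 3 + i) → ℝ), p.2 - p.1 0 * c)) := by
      intro c
      apply Continuous.prodMk
      · apply continuous_pi
        intro a
        exact (continuous_apply a.succ).comp continuous_fst
      · fun_prop
    have h1 : {p : (Fin (j + 3 + (i + 1)) → ℝ) × ℝ | p.2 ∈ Bp j C L U P h q1 q2 (i + 1) p.1} =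
        (fun p : (Fin (j + 3 + i + 1) → ℝ) × ℝ =>
          ((Fin.tail p.1 : Fin (j + 3 + i) → ℝ), p.2 - p.1 0 * (q1 : ℝ) ^ (j + 2))) ⁻¹'
            {p : (Fin (j + 3 + i) → ℝ) × ℝ | p.2 ∈ Bp j C L U P h q1 q2 i p.1} ∩
        (fun p : (Fin (j + 3 + i + 1) → ℝ) × ℝ =>
          ((Fin.tail p.1 : Fin (j + 3 + i) → ℝ), p.2 - p.1 0 * (q2 : ℝ) ^ (j + 2))) ⁻¹'
            {p : (Fin (j + 3 + i) → ℝ) × ℝ | p.2 ∈ Bp j C L U P h q1 q2 i p.1} := rfl
    rw [h1]
    exact (ih.preimage (hc _)).inter (ih.preimage (hc _))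

theorem Bp_meas (j C L U P h q1 q2 i : ℕ) (θ : Fin (j + 3 + i) → ℝ) : MeasurableSet (Bp j C L U P h q1 q2 i θ) := by
  have h1 := (Bp_closed j C L U P h q1 q2 i).preimage (Continuous.prodMk continuous_const continuous_id :
    Continuous (fun τ : ℝ => ((θ, τ) : (Fin (j + 3 + i) → ℝ) × ℝ)))
  exact h1.measurableSet

theorem Bp_vol_meas (j C L U P h q1 q2 i : ℕ) :
    Measurable (fun θ : Fin (j + 3 + i) → ℝ => volume (Bp j C L U P h q1 q2 i θ)) :=
  measurable_measure_prodMk_left (Bp_closed j C L U P h q1 q2 i).measurableSet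

/-- the measure of the first bad set -/
theorem meas0p (j P C A U h q1 q2 : ℕ) (θ : Fin (j + 3) → ℝ) (hP : 1 ≤ P) (hA : 1 ≤ A) (hC : C = A * U) (hU : 2 ≤ U)
    (h1 : ∀ i, 1 / (A : ℝ) ≤ θ i) (h2 : ∀ i, θ i ≤ A) (CH : ℝ) (hCH : CH = (A : ℝ) * (j + 2) * (C : ℝ) ^ (j + 1))
    (a : ℝ) (ha0 : 0 < a) (ha : 2 * a ≤ ((PR P 2).card : ℝ) ^ (j + 2) * (Real.exp (-π) / (CH * (P : ℝ) ^ (j + 1))))
    (hsmall : ((C : ℝ) * P) ^ (j + 3) * (Real.exp (-(π * 4 ^ h)) * 4 ^ h) ≤ a) :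
    ENNReal.ofReal (a ^ 2) * volume (Bp j C ((j + 2) * A * 2 ^ (j + 2) + A) U P h q1 q2 0 θ) ≤
      ENNReal.ofReal (Jp j (j + 3) P C (1 / (16 : ℝ) ^ h) ((CH * (P : ℝ) ^ (j + 1)) ^ 2) θ) := by
  have hA' : (1 : ℝ) ≤ A := by exact_mod_cast hA
  have hP' : (1 : ℝ) ≤ P := by exact_mod_cast hP
  have hC1 : 1 ≤ C := by
    rw [hC]
    exact Nat.mul_pos hA (by omega)
  have hC' : (1 : ℝ) ≤ C := by exact_mod_cast hC1
  have hCH0 : 0 < CH := by
    rw [hCH]
    positivity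
  set H := CH * (P : ℝ) ^ (j + 1) with hH
  have hH0 : 0 < H := by positivity
  set q : ℝ := 1 / (16 : ℝ) ^ h with hq
  have hq0 : 0 < q := by positivity
  have hpl := plan (BP (j + 3) P C) (F j (j + 3) θ) q (H ^ 2) hq0 (by positivity)
  set f : ℝ → ℝ := fun τ => (∑ x ∈ BP (j + 3) P C, gd q (H ^ 2) (F j (j + 3) θ x - τ)) ^ 2 with hf
  have hsub : Bp j C ((j + 2) * A * 2 ^ (j + 2) + A) U P h q1 q2 0 θ ⊆
      {τ | ENNReal.ofReal (a ^ 2) ≤ ENNReal.ofReal (f τ)} := by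
    intro τ hτ
    have hτ' : (((j + 2) * A * 2 ^ (j + 2) + A : ℕ) : ℝ) * (P : ℝ) ^ (j + 2) ≤ τ ∧ τ ≤ (U : ℝ) * (P : ℝ) ^ (j + 2) ∧
      ∀ x ∈ BP (j + 3) P C, 1 / (2 : ℝ) ^ h ≤ |F j (j + 3) θ x - τ| := hτ
    obtain ⟨t1, t2, t3⟩ := hτ'
    rw [Set.mem_ofPred_eq]
    apply ENNReal.ofReal_le_ofReal
    have hc := coarse_p j P C A U θ τ hP hA hC hU h1 h2 t1 t2
    rw [← hCH, ← hH] at hc
    have e1 : ∑ x ∈ BP (j + 3) P C, gq q (F j (j + 3) θ x - τ) ≤ a := by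
      refine le_trans ?_ hsmall
      refine (Finset.sum_le_sum fun x hx => gq_small h _ (t3 x hx)).trans ?_
      rw [Finset.sum_const, nsmul_eq_mul]
      exact mul_le_mul_of_nonneg_right (BP_card _ _ _ hP) (by positivity)
    have e2 : 2 * a ≤ ∑ x ∈ BP (j + 3) P C, gq (H ^ 2) (F j (j + 3) θ x - τ) := by
      have e3 : ∑ x ∈ (BP (j + 3) P C).filter (fun x => |F j (j + 3) θ x - τ| ≤ H), gq (H ^ 2) (F j (j + 3) θ x - τ) ≤
          ∑ x ∈ BP (j + 3) P C, gq (H ^ 2) (F j (j + 3) θ x - τ) :=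
        Finset.sum_le_sum_of_subset_of_nonneg (Finset.filter_subset _ _)
          (fun x _ _ => (gq_pos _ _ (by positivity)).le)
      refine le_trans ?_ e3
      have e4 : ∑ x ∈ (BP (j + 3) P C).filter (fun x => |F j (j + 3) θ x - τ| ≤ H), Real.exp (-π) / H ≤
          ∑ x ∈ (BP (j + 3) P C).filter (fun x => |F j (j + 3) θ x - τ| ≤ H), gq (H ^ 2) (F j (j + 3) θ x - τ) :=
        Finset.sum_le_sum fun x hx => gq_big H _ hH0 (Finset.mem_filter.mp hx).2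
      refine le_trans ?_ e4
      rw [Finset.sum_const, nsmul_eq_mul]
      exact le_trans ha (mul_le_mul_of_nonneg_right hc (by positivity))
    have e5 : ∑ x ∈ BP (j + 3) P C, gd q (H ^ 2) (F j (j + 3) θ x - τ) ≤ -a := by
      unfold gd
      rw [Finset.sum_sub_distrib]
      linarith
    rw [hf]
    simp only
    rw [← neg_sq (∑ x ∈ BP (j + 3) P C, gd q (H ^ 2) (F j (j + 3) θ x - τ))]
    exact pow_le_pow_left₀ ha0.le (by linarith) 2
  have hfm : Measurable (fun τ => ENNReal.ofReal (f τ)) := by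
    apply Measurable.ennreal_ofReal
    apply Measurable.pow_const
    apply Finset.measurable_fun_sum
    intro x _
    unfold gd
    exact (((gq_cont q).comp (by fun_prop)).sub ((gq_cont (H ^ 2)).comp (by fun_prop))).measurable
  have hmk := mul_meas_ge_le_lintegral (μ := volume) hfm (ENNReal.ofReal (a ^ 2))
  have hJ : ∫⁻ τ, ENNReal.ofReal (f τ) = ENNReal.ofReal (Jp j (j + 3) P C q (H ^ 2) θ) := by
    rw [← ofReal_integral_eq_lintegral_ofReal hpl.1 (Eventually.of_forall fun τ => sq_nonneg _)]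
    rfl
  rw [hJ] at hmk
  exact (mul_le_mul_right (measure_mono hsub) _).trans hmk

theorem Jp_meas (j n P C : ℕ) (q Q : ℝ) : Measurable (fun θ : Fin n → ℝ => Jp j n P C q Q θ) := by
  have hc : Continuous (fun p : (Fin n → ℝ) × ℝ => (∑ x ∈ BP n P C, gd q Q (F j n p.1 x - p.2)) ^ 2) := by
    apply Continuous.pow
    apply continuous_finsetSum
    intro x _
    unfold gd F
    exact ((gq_cont q).comp (by fun_prop)).sub ((gq_cont Q).comp (by fun_prop))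
  exact (hc.stronglyMeasurable.integral_prod_right).measurable

end Pool.Agent.Y867.WP
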