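import Pool.Agent.Y867.WP.PaC
import Pool.Agent.H38R2.CG.NB

/-! # The first stage -/

set_option autoImplicit false

open MeasureTheory Filter Finset
open scoped ENNReal Real

namespace Pool.Agent.Y867.WP

open Pool.Agent.Y867.WR (QB QB_meas mem_QB bc')
open Pool.Agent.Y867.WC (XX growth small_ev lam lam_pos)

theorem PR_card : ∀ᶠ m : ℕ in atTop, (((2 ^ m : ℕ) : ℝ)) / ((m : ℝ) + 1) ≤ ((PR (2 ^ m) 2).card : ℝ) := by
  obtain ⟨y0, hy0⟩ := Pool.Agent.H38R2.CG.NBh.part2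
  filter_upwards [eventually_ge_atTop (y0 + 1)] with m hm
  have h1 : m < 2 ^ m := Nat.lt_two_pow_self
  have h2 := (hy0 (2 ^ m) (by omega)).1
  have h3 : (Pool.Agent.H38R2.CG.PP (2 ^ m)).card ≤ (PR (2 ^ m) 2).card := by
    apply Finset.card_le_card_of_injOn (fun p : ℕ => (p : ℤ))
    · intro p hp
      have hp' : p ∈ Pool.Agent.H38R2.CG.PP (2 ^ m) := hp
      unfold Pool.Agent.H38R2.CG.PP at hp'
      rw [Finset.mem_filter, Finset.mem_Ioc] at hp'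
      show ((p : ℤ)) ∈ (PR (2 ^ m) 2 : Finset ℤ)
      unfold PR XX
      rw [Finset.mem_filter, Finset.mem_Icc]
      refine ⟨⟨by exact_mod_cast hp'.1.1.le, by exact_mod_cast hp'.1.2⟩, ?_⟩
      rw [Int.toNat_natCast]
      exact hp'.2
    · intro p _ p' _ h
      have h' : (p : ℤ) = (p' : ℤ) := h
      exact_mod_cast h'
  have h4 : ((Pool.Agent.H38R2.CG.PP (2 ^ m)).card : ℝ) ≤ ((PR (2 ^ m) 2).card : ℝ) := by exact_mod_cast h3
  refine le_trans ?_ (h2.trans h4)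
  have hm0 : (0 : ℝ) < m := by
    have : 0 < m := by omega
    exact_mod_cast this
  have hlog : Real.log ((2 ^ m : ℕ) : ℝ) = m * Real.log 2 := by
    push_cast
    rw [Real.log_pow]
  have hl2 : Real.log 2 < 0.9 := by linarith [Real.log_two_lt_d9]
  have hl0 : 0 < Real.log 2 := Real.log_pos (by norm_num)
  rw [hlog, div_le_div_iff₀ (by positivity) (by positivity)]
  have hP : (0 : ℝ) < ((2 ^ m : ℕ) : ℝ) := by positivity
  nlinarith [mul_pos hP hm0, mul_pos hP hl0, mul_pos (mul_pos hP hm0) (sub_pos.mpr hl2)]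

theorem stage0p (j A U C N0 : ℕ) (hA : 1 ≤ A) (hC : C = A * U) (hU : 2 ≤ U) (hN : 1 ≤ N0) (q1 q2 : ℕ → ℕ) :
    ∀ᵐ θ ∂(volume.restrict (QB (j + 3) A)), ∀ᶠ m : ℕ in atTop, (∀ i, 1 / (A : ℝ) ≤ θ i) →
      volume (Bp j C ((j + 2) * A * 2 ^ (j + 2) + A) U (2 ^ m) (m / N0) (q1 m) (q2 m) 0 θ) ≤
        ENNReal.ofReal (lam j N0 0 m) := by
  have hA' : (1 : ℝ) ≤ A := by exact_mod_cast hA
  have hC1 : 1 ≤ C := by
    rw [hC]
    exact Nat.mul_pos hA (by omega)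
  have hC' : (1 : ℝ) ≤ C := by exact_mod_cast hC1
  set CH : ℝ := (A : ℝ) * (j + 2) * (C : ℝ) ^ (j + 1) with hCH
  have hCpow : (1 : ℝ) ≤ (C : ℝ) ^ (j + 1) := one_le_pow₀ hC'
  have hCH1 : 1 ≤ CH := by
    have h1 : (1 : ℝ) ≤ (A : ℝ) * (j + 2) := one_le_mul_of_one_le_of_one_le hA' (by
      have : (0 : ℝ) ≤ j := by positivity
      linarith)
    exact one_le_mul_of_one_le_of_one_le h1 hCpow
  have hpi := Real.pi_pos
  set a : ℕ → ℝ := fun m => ((2 ^ m : ℕ) : ℝ) * Real.exp (-π) / (2 * CH * ((m : ℝ) + 1) ^ (j + 2)) with ha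
  have ha0 : ∀ m, 0 < a m := fun m => by
    simp only [ha]
    positivity
  have hlogC : 0 ≤ Real.log C := Real.log_nonneg hC'
  obtain ⟨D0, hD0⟩ : ∃ D0 : ℝ, D0 = (4 * A * C ^ 2 * (1 + Real.log C)) ^ (j + 3) := ⟨_, rfl⟩
  have hD00 : 0 ≤ D0 := by
    rw [hD0]
    positivity
  obtain ⟨K2, hK2⟩ : ∃ K2 : ℝ, K2 = D0 * (1 + 2 * π ^ 2 * CH ^ 4) * (4 * CH ^ 2 * Real.exp π ^ 2) := ⟨_, rfl⟩
  have hK20 : 0 ≤ K2 := by
    rw [hK2]
    positivity
  obtain ⟨p0, hp0⟩ := eventually_atTop.mp (growth (3 * j + 9) N0 hN)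
  set s : ℕ → Set (Fin (j + 3) → ℝ) := fun m => {θ | ENNReal.ofReal (a m ^ 2 * lam j N0 0 m) ≤
    ENNReal.ofReal (Jp j (j + 3) (2 ^ m) C (1 / (16 : ℝ) ^ (m / N0)) ((CH * ((2 ^ m : ℕ) : ℝ) ^ (j + 1)) ^ 2) θ)} with hs
  have hmu : ∀ m, p0 ≤ m → (volume.restrict (QB (j + 3) (A : ℝ))) (s m) ≤
      ENNReal.ofReal (K2 * (1 / ((m : ℝ) + 1) ^ 2)) := by
    intro m hm
    have hP1 : 1 ≤ 2 ^ m := Nat.one_le_two_pow
    have hP' : (0 : ℝ) < ((2 ^ m : ℕ) : ℝ) := by exact_mod_cast hP1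
    set P : ℝ := ((2 ^ m : ℕ) : ℝ) with hP
    have hlam : 0 < a m ^ 2 * lam j N0 0 m := mul_pos (pow_pos (ha0 m) 2) (lam_pos _ _ _ _)
    have h1 := meas_ge_le_lintegral_div (μ := volume.restrict (QB (j + 3) (A : ℝ)))
      ((Jp_meas j (j + 3) (2 ^ m) C (1 / (16 : ℝ) ^ (m / N0)) ((CH * P ^ (j + 1)) ^ 2)).ennreal_ofReal.aemeasurable)
      (ne_of_gt (ENNReal.ofReal_pos.mpr hlam)) ENNReal.ofReal_ne_top
    have hq1 : (1 : ℝ) / (16 : ℝ) ^ (m / N0) ≤ 1 := by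
      rw [div_le_one (by positivity)]
      exact one_le_pow₀ (by norm_num)
    have h2 := msq2p j (2 ^ m) C A CH (1 / (16 : ℝ) ^ (m / N0)) hP1 hC1 hA' hCH1 (by positivity) hq1
    rw [← hP] at h2
    refine h1.trans ((ENNReal.div_le_div_right h2 _).trans ?_)
    rw [← ENNReal.ofReal_div_of_pos hlam]
    apply ENNReal.ofReal_le_ofReal
    have hsq : √(1 / (16 : ℝ) ^ (m / N0)) = 1 / 4 ^ (m / N0) := by
      rw [Real.sqrt_div zero_le_one, Real.sqrt_one]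
      congr 1
      rw [show (16 : ℝ) ^ (m / N0) = (4 ^ (m / N0)) ^ 2 by rw [← pow_mul, mul_comm _ 2, pow_mul]; norm_num]
      exact Real.sqrt_sq (by positivity)
    have hlogP : Real.log (C * P) ≤ Real.log C + m := by
      rw [Real.log_mul (by positivity) (by positivity), hP]
      push_cast
      rw [Real.log_pow]
      have h3 : Real.log 2 ≤ 1 := by linarith [Real.log_two_lt_d9]
      have h4 : (m : ℝ) * Real.log 2 ≤ m * 1 := mul_le_mul_of_nonneg_left h3 (by positivity)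
      linarith
    have hlogP0 : 0 ≤ Real.log (C * P) := by
      apply Real.log_nonneg
      exact one_le_mul_of_one_le_of_one_le hC' (by rw [hP]; exact_mod_cast hP1)
    obtain ⟨D1, hD1⟩ : ∃ D1 : ℝ, D1 = (4 * A * C ^ 2 * (1 + Real.log (C * P))) ^ (j + 3) := ⟨_, rfl⟩
    have hD : D1 ≤ D0 * ((m : ℝ) + 1) ^ (j + 3) := by
      rw [hD0, hD1, ← mul_pow]
      apply pow_le_pow_left₀ (by positivity)
      rw [mul_assoc (4 * (A : ℝ) * C ^ 2)]
      apply mul_le_mul_of_nonneg_left _ (by positivity)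
      nlinarith [mul_nonneg hlogC (by positivity : (0 : ℝ) ≤ m)]
    rw [← hD1]
    have hg := hp0 m hm
    set h := m / N0 with hh
    obtain ⟨u, hu⟩ : ∃ u : ℝ, u = ((m : ℝ) + 1) := ⟨_, rfl⟩
    obtain ⟨v, hv⟩ : ∃ v : ℝ, v = P ^ (j + 3) := ⟨_, rfl⟩
    have hu0 : 0 < u := by
      rw [hu]
      positivity
    have hv0 : 0 < v := by
      rw [hv]
      positivity
    have hlameq : a m ^ 2 * lam j N0 0 m = v * 16 ^ h / (4 * CH ^ 2 * Real.exp π ^ 2 * u ^ (2 * (j + 2))) := by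
      simp only [ha]
      unfold lam
      rw [← hP, ← hh, Real.exp_neg, pow_zero, pow_one, ← hu, hv]
      have h32 : (2 : ℝ) ^ (5 * h) = 16 ^ h * 2 ^ h := by
        rw [← mul_pow, pow_mul]
        norm_num
      rw [h32, show j + 3 = (j + 2) + 1 by ring, pow_succ P (j + 2), show 2 * (j + 2) = (j + 2) + (j + 2) by ring,
        pow_add u (j + 2) (j + 2)]
      obtain ⟨w, hw⟩ : ∃ w : ℝ, w = u ^ (j + 2) := ⟨_, rfl⟩
      rw [← hw]
      have hw0 : 0 < w := by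
        rw [hw]
        positivity
      field_simp
      ring
    have hx : v / (1 / (4 : ℝ) ^ h) = v * 4 ^ h := by rw [div_div_eq_mul_div, div_one]
    rw [← hv, hlameq, hsq, hx, div_div_eq_mul_div]
    rw [div_le_iff₀ (by positivity)]
    rw [← hu] at hD hg ⊢
    have h5 : u ^ (j + 3) * u ^ (2 * (j + 2)) * 4 ^ h ≤ 1 / u ^ 2 * 16 ^ h := by
      have h6 : u ^ (j + 3) * u ^ (2 * (j + 2)) * u ^ 2 ≤ 4 ^ h := by
        rw [← pow_add, ← pow_add]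
        have h8 : j + 3 + 2 * (j + 2) + 2 = 3 * j + 9 := by ring
        rw [h8]
        refine hg.trans ?_
        exact pow_le_pow_left₀ (by norm_num) (by norm_num) _
      have h7 : (16 : ℝ) ^ h = 4 ^ h * 4 ^ h := by rw [← mul_pow]; norm_num
      rw [h7, one_div, ← mul_assoc]
      apply mul_le_mul_of_nonneg_right _ (by positivity)
      rw [inv_mul_eq_div, le_div_iff₀ (by positivity)]
      exact h6
    obtain ⟨b1, hb1⟩ : ∃ b1 : ℝ, b1 = u ^ (j + 3) := ⟨_, rfl⟩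
    obtain ⟨b2, hb2⟩ : ∃ b2 : ℝ, b2 = u ^ (2 * (j + 2)) := ⟨_, rfl⟩
    have hb20 : 0 < b2 := by
      rw [hb2]
      positivity
    rw [← hb1] at hD h5
    rw [← hb2] at h5 ⊢
    calc D1 * (1 + 2 * π ^ 2 * CH ^ 4) * (v * 4 ^ h) *
          (4 * CH ^ 2 * Real.exp π ^ 2 * b2) ≤ (D0 * b1) *
          (1 + 2 * π ^ 2 * CH ^ 4) * (v * 4 ^ h) * (4 * CH ^ 2 * Real.exp π ^ 2 * b2) := by
          apply mul_le_mul_of_nonneg_right _ (by positivity)
          apply mul_le_mul_of_nonneg_right _ (by positivity)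
          exact mul_le_mul_of_nonneg_right hD (by positivity)
      _ = K2 * (b1 * b2 * 4 ^ h) * v := by rw [hK2]; ring
      _ ≤ K2 * (1 / u ^ 2 * 16 ^ h) * v := by
          apply mul_le_mul_of_nonneg_right _ hv0.le
          exact mul_le_mul_of_nonneg_left h5 hK20
      _ = _ := by ring
  have hsum : Summable (fun m : ℕ => K2 * (1 / ((m : ℝ) + 1) ^ 2)) := by
    apply Summable.mul_left
    have h1 := (summable_nat_add_iff (f := fun m : ℕ => 1 / (m : ℝ) ^ 2) 1).mpr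
      (Real.summable_one_div_nat_pow.mpr (by norm_num))
    refine h1.congr fun m => ?_
    push_cast
    rfl
  have hae := bc' (volume.restrict (QB (j + 3) (A : ℝ))) s _ hsum p0 hmu
  have hQ : ∀ᵐ θ ∂(volume.restrict (QB (j + 3) (A : ℝ))), θ ∈ QB (j + 3) (A : ℝ) := ae_restrict_mem (QB_meas _ _)
  filter_upwards [hae, hQ] with θ h1 h2
  filter_upwards [h1, small_ev (j + 1) C N0 CH hN hC1 (by linarith), PR_card, growth (j + 2) 1 le_rfl] with m h3 h4 hpr hgr h5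
  have hP1 : 1 ≤ 2 ^ m := Nat.one_le_two_pow
  have hP2 : (1 : ℝ) ≤ ((2 ^ m : ℕ) : ℝ) := by exact_mod_cast hP1
  obtain ⟨u, hu⟩ : ∃ u : ℝ, u = ((m : ℝ) + 1) := ⟨_, rfl⟩
  have hu0 : 0 < u := by
    rw [hu]
    positivity
  have h4' : ((C : ℝ) * ((2 ^ m : ℕ) : ℝ)) ^ (j + 3) * (Real.exp (-(π * 4 ^ (m / N0))) * 4 ^ (m / N0)) ≤ a m := by
    have h6 : Real.exp (-π) / (2 * CH) ≤ a m := by
      simp only [ha]
      rw [div_le_div_iff₀ (by positivity) (by positivity)]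
      have h7 : ((m : ℝ) + 1) ^ (j + 2) ≤ ((2 ^ m : ℕ) : ℝ) := by
        refine hgr.trans (le_of_eq ?_)
        rw [Nat.div_one]
        push_cast
        rfl
      have h8 : 0 < Real.exp (-π) * (2 * CH) := by positivity
      nlinarith [mul_le_mul_of_nonneg_left h7 h8.le]
    refine le_trans ?_ h6
    have h7 : (1 : ℝ) ≤ (C : ℝ) * ((2 ^ m : ℕ) : ℝ) := one_le_mul_of_one_le_of_one_le hC' hP2
    have h9 : (C : ℝ) * ((2 ^ m : ℕ) : ℝ) * (((C : ℝ) * ((2 ^ m : ℕ) : ℝ)) ^ (j + 3) *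
        (Real.exp (-(π * 4 ^ (m / N0))) * 4 ^ (m / N0))) ≤ ((2 ^ m : ℕ) : ℝ) * Real.exp (-π) / (2 * CH) := by
      refine le_trans (le_of_eq ?_) h4
      rw [show j + 1 + 3 = (j + 3) + 1 by ring, pow_succ]
      ring
    have h10 : ((2 ^ m : ℕ) : ℝ) * (((C : ℝ) * ((2 ^ m : ℕ) : ℝ)) ^ (j + 3) *
        (Real.exp (-(π * 4 ^ (m / N0))) * 4 ^ (m / N0))) ≤ (C : ℝ) * ((2 ^ m : ℕ) : ℝ) *
        (((C : ℝ) * ((2 ^ m : ℕ) : ℝ)) ^ (j + 3) * (Real.exp (-(π * 4 ^ (m / N0))) * 4 ^ (m / N0))) := by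
      apply mul_le_mul_of_nonneg_right _ (by positivity)
      exact le_mul_of_one_le_left (by positivity) hC'
    have h11 := h10.trans h9
    rw [mul_div_assoc] at h11
    exact le_of_mul_le_mul_left h11 (by positivity)
  have h2a : 2 * a m ≤ ((PR (2 ^ m) 2).card : ℝ) ^ (j + 2) * (Real.exp (-π) / (CH * ((2 ^ m : ℕ) : ℝ) ^ (j + 1))) := by
    have h6 : (((2 ^ m : ℕ) : ℝ) / ((m : ℝ) + 1)) ^ (j + 2) ≤ ((PR (2 ^ m) 2).card : ℝ) ^ (j + 2) :=
      pow_le_pow_left₀ (by positivity) hpr _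
    refine le_trans (le_of_eq ?_) (mul_le_mul_of_nonneg_right h6 (by positivity))
    simp only [ha]
    rw [div_pow, ← hu, show j + 2 = (j + 1) + 1 by ring, pow_succ ((2 ^ m : ℕ) : ℝ) (j + 1)]
    obtain ⟨w, hw⟩ : ∃ w : ℝ, w = u ^ (j + 1 + 1) := ⟨_, rfl⟩
    rw [← hw]
    have hw0 : 0 < w := by
      rw [hw]
      positivity
    obtain ⟨v, hv⟩ : ∃ v : ℝ, v = ((2 ^ m : ℕ) : ℝ) ^ (j + 1) := ⟨_, rfl⟩
    have hv0 : 0 < v := by
      rw [hv]
      positivity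
    rw [← hv]
    field_simp
  have h6 := meas0p j (2 ^ m) C A U (m / N0) (q1 m) (q2 m) θ hP1 hA hC hU h5
    (fun i => (le_abs_self _).trans ((mem_QB _ _ θ).mp h2 i)) CH hCH (a m) (ha0 m) h2a h4'
  have h7 : ENNReal.ofReal (Jp j (j + 3) (2 ^ m) C (1 / (16 : ℝ) ^ (m / N0))
      ((CH * ((2 ^ m : ℕ) : ℝ) ^ (j + 1)) ^ 2) θ) < ENNReal.ofReal (a m ^ 2 * lam j N0 0 m) := by
    simp only [hs, Set.mem_ofPred_eq] at h3
    exact not_le.mp h3
  have h8 := h6.trans_lt h7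
  rw [ENNReal.ofReal_mul (by positivity)] at h8
  by_contra h9
  push Not at h9
  exact absurd h8 (not_lt.mpr (mul_le_mul_right h9.le _))

end Pool.Agent.Y867.WP
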