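import Pool.Agent.Y867.WP.PaD

/-! # The stages and the conclusion -/

set_option autoImplicit false

open MeasureTheory Filter Finset
open scoped ENNReal Real

namespace Pool.Agent.Y867.WP

open Pool.Agent.Y867.WR (QB QB_meas mem_QB bc')
open Pool.Agent.Y867.WC (XX growth lam lam_pos lam_step dbl dbl_fib dbl_set F lam_le final_exp)

/-- two primes for each scale -/
structure QQ (q1 q2 : ℕ → ℕ) : Prop where
  p1 : ∀ m, (q1 m).Prime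
  p2 : ∀ m, (q2 m).Prime
  l1 : ∀ m, 2 ^ m ≤ q1 m
  u1 : ∀ m, q1 m ≤ 2 * 2 ^ m
  l2 : ∀ m, 4 * 2 ^ m ≤ q2 m
  u2 : ∀ m, q2 m ≤ 8 * 2 ^ m

theorem QQ_exists : ∃ q1 q2 : ℕ → ℕ, QQ q1 q2 := by
  have h1 : ∀ m : ℕ, ∃ p, Nat.Prime p ∧ 2 ^ m < p ∧ p ≤ 2 * 2 ^ m := fun m =>
    Nat.exists_prime_lt_and_le_two_mul (2 ^ m) (by positivity)
  have h2 : ∀ m : ℕ, ∃ p, Nat.Prime p ∧ 4 * 2 ^ m < p ∧ p ≤ 2 * (4 * 2 ^ m) := fun m =>
    Nat.exists_prime_lt_and_le_two_mul (4 * 2 ^ m) (by positivity)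
  choose q1 hq1 using h1
  choose q2 hq2 using h2
  exact ⟨q1, q2, ⟨fun m => (hq1 m).1, fun m => (hq2 m).1, fun m => (hq1 m).2.1.le, fun m => (hq1 m).2.2,
    fun m => (hq2 m).2.1.le, fun m => (hq2 m).2.2.trans (by omega)⟩⟩

theorem step1p (j N0 i : ℕ) (hN : 1 ≤ N0) (q1 q2 : ℕ → ℕ) (hq : QQ q1 q2) (B : ℕ → Set ℝ) (hB : ∀ m, MeasurableSet (B m))
    (hb : ∀ᶠ m : ℕ in atTop, volume (B m) ≤ ENNReal.ofReal (lam j N0 i m)) :
    ∀ᵐ φ : ℝ, ∀ᶠ m : ℕ in atTop, volume {τ : ℝ | τ - φ * (q1 m : ℝ) ^ (j + 2) ∈ B m ∧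
      τ - φ * (q2 m : ℝ) ^ (j + 2) ∈ B m} ≤ ENNReal.ofReal (lam j N0 (i + 1) m) := by
  set g : ℕ → ℝ → ℝ≥0∞ := fun m φ => volume {τ : ℝ | τ - φ * (q1 m : ℝ) ^ (j + 2) ∈ B m ∧
      τ - φ * (q2 m : ℝ) ^ (j + 2) ∈ B m} with hg
  have hgm : ∀ m, Measurable (g m) := by
    intro m
    have h1 : g m = fun φ => volume (Prod.mk φ ⁻¹' {p : ℝ × ℝ | p.2 ∈ B m ∧ p.2 - p.1 *
        ((q2 m : ℝ) ^ (j + 2) - (q1 m : ℝ) ^ (j + 2)) ∈ B m}) := by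
      funext φ
      exact dbl_fib (B m) (hB m) _ _ φ
    rw [h1]
    exact measurable_measure_prodMk_left (dbl_set (B m) (hB m) _)
  set s : ℕ → Set ℝ := fun m => {φ | ENNReal.ofReal (lam j N0 (i + 1) m) ≤ g m φ} with hs
  obtain ⟨p0, hp0⟩ := eventually_atTop.mp (hb.and (growth 2 N0 hN))
  have hmu : ∀ m, p0 ≤ m → volume (s m) ≤ ENNReal.ofReal (1 / ((m : ℝ) + 1) ^ 2) := by
    intro m hm
    obtain ⟨hb1, hgr⟩ := hp0 m hm
    have hP1 : (1 : ℝ) ≤ ((2 ^ m : ℕ) : ℝ) := by exact_mod_cast Nat.one_le_two_pow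
    have hP : (0 : ℝ) < ((2 ^ m : ℕ) : ℝ) := by linarith
    have hu1 : (q1 m : ℝ) ≤ 2 * ((2 ^ m : ℕ) : ℝ) := by exact_mod_cast hq.u1 m
    have hl2 : 4 * ((2 ^ m : ℕ) : ℝ) ≤ (q2 m : ℝ) := by exact_mod_cast hq.l2 m
    set P : ℝ := ((2 ^ m : ℕ) : ℝ) with hPdef
    have hgap : P ^ (j + 2) ≤ (q2 m : ℝ) ^ (j + 2) - (q1 m : ℝ) ^ (j + 2) := by
      have h1 : (q1 m : ℝ) ^ (j + 2) ≤ (2 * P) ^ (j + 2) := pow_le_pow_left₀ (by positivity) hu1 _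
      have h2 : (4 * P) ^ (j + 2) ≤ (q2 m : ℝ) ^ (j + 2) := pow_le_pow_left₀ (by positivity) hl2 _
      have h3 : (4 * P) ^ (j + 2) = 2 ^ (j + 2) * (2 * P) ^ (j + 2) := by
        rw [← mul_pow]
        congr 1
        ring
      have h5 : (2 : ℝ) ≤ 2 ^ (j + 2) := le_self_pow₀ (by norm_num) (by omega)
      have h6 : P ^ (j + 2) ≤ (2 * P) ^ (j + 2) := pow_le_pow_left₀ hP.le (by linarith) _
      have h7 : 2 * (2 * P) ^ (j + 2) ≤ 2 ^ (j + 2) * (2 * P) ^ (j + 2) := mul_le_mul_of_nonneg_right h5 (by positivity)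
      linarith
    have hPk : 0 < P ^ (j + 2) := by positivity
    have hlt : (q1 m : ℝ) ^ (j + 2) < (q2 m : ℝ) ^ (j + 2) := by linarith
    have hlam := lam_pos j N0 (i + 1) m
    have h1 := meas_ge_le_lintegral_div (μ := (volume : Measure ℝ)) (hgm m).aemeasurable
      (ne_of_gt (ENNReal.ofReal_pos.mpr hlam)) ENNReal.ofReal_ne_top
    refine h1.trans ?_
    have h2 := dbl (B m) (hB m) ((q1 m : ℝ) ^ (j + 2)) ((q2 m : ℝ) ^ (j + 2)) hlt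
    have h3 : ∫⁻ φ, g m φ ≤ ENNReal.ofReal (lam j N0 (i + 1) m * (1 / 2 ^ (m / N0))) := by
      refine h2.trans ?_
      have h4 : ENNReal.ofReal (1 / ((q2 m : ℝ) ^ (j + 2) - (q1 m : ℝ) ^ (j + 2))) * volume (B m) * volume (B m) ≤
          ENNReal.ofReal (1 / P ^ (j + 2)) * ENNReal.ofReal (lam j N0 i m) * ENNReal.ofReal (lam j N0 i m) := by
        apply mul_le_mul' (mul_le_mul' _ hb1) hb1
        apply ENNReal.ofReal_le_ofReal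
        exact one_div_le_one_div_of_le (by positivity) hgap
      refine h4.trans ?_
      rw [← ENNReal.ofReal_mul (by positivity), ← ENNReal.ofReal_mul (mul_nonneg (by positivity) (lam_pos _ _ _ _).le)]
      apply ENNReal.ofReal_le_ofReal
      rw [← lam_step]
      apply le_of_eq
      ring
    refine (ENNReal.div_le_div_right h3 _).trans ?_
    rw [← ENNReal.ofReal_div_of_pos hlam]
    apply ENNReal.ofReal_le_ofReal
    rw [mul_div_assoc, mul_comm, div_mul_cancel₀ _ hlam.ne']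
    exact one_div_le_one_div_of_le (by positivity) hgr
  have hsum : Summable (fun m : ℕ => 1 / ((m : ℝ) + 1) ^ 2) := by
    have h1 := (summable_nat_add_iff (f := fun m : ℕ => 1 / (m : ℝ) ^ 2) 1).mpr
      (Real.summable_one_div_nat_pow.mpr (by norm_num))
    refine h1.congr fun m => ?_
    push_cast
    rfl
  filter_upwards [bc' volume s _ hsum p0 hmu] with φ h1
  filter_upwards [h1] with m hm
  simp only [hs, Set.mem_ofPred_eq] at hm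
  exact (not_le.mp hm).le

/-- the statement of stage `i` -/
def STp (j A U C N0 : ℕ) (q1 q2 : ℕ → ℕ) (i : ℕ) (θ : Fin (j + 3 + i) → ℝ) : Prop :=
  (∀ l, 1 / (A : ℝ) ≤ θ l ∧ θ l ≤ A) → ∀ᶠ m : ℕ in atTop,
    volume (Bp j C ((j + 2) * A * 2 ^ (j + 2) + A) U (2 ^ m) (m / N0) (q1 m) (q2 m) i θ) ≤ ENNReal.ofReal (lam j N0 i m)

theorem STp_meas (j A U C N0 : ℕ) (q1 q2 : ℕ → ℕ) (i : ℕ) :
    MeasurableSet {θ : Fin (j + 3 + i) → ℝ | STp j A U C N0 q1 q2 i θ} := by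
  have h1 : {θ : Fin (j + 3 + i) → ℝ | STp j A U C N0 q1 q2 i θ} =
      {θ : Fin (j + 3 + i) → ℝ | ∀ l, 1 / (A : ℝ) ≤ θ l ∧ θ l ≤ (A : ℝ)}ᶜ ∪ ⋃ n : ℕ, ⋂ m : ℕ, ⋂ _ : n ≤ m,
        {θ | volume (Bp j C ((j + 2) * A * 2 ^ (j + 2) + A) U (2 ^ m) (m / N0) (q1 m) (q2 m) i θ) ≤
          ENNReal.ofReal (lam j N0 i m)} := by
    ext θ
    simp only [STp, Set.mem_ofPred_eq, Set.mem_union, Set.mem_compl_iff, Set.mem_iUnion, Set.mem_iInter,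
      eventually_atTop]
    tauto
  rw [h1]
  apply MeasurableSet.union
  · apply MeasurableSet.compl
    have h2 : {θ : Fin (j + 3 + i) → ℝ | ∀ l, 1 / (A : ℝ) ≤ θ l ∧ θ l ≤ A} =
        Set.Icc (fun _ => 1 / (A : ℝ)) (fun _ => (A : ℝ)) := by
      ext θ
      simp only [Set.mem_ofPred_eq, Set.mem_Icc, Pi.le_def]
      exact forall_and
    rw [h2]
    exact measurableSet_Icc
  · refine MeasurableSet.iUnion fun n => MeasurableSet.iInter fun m => MeasurableSet.iInter fun _ => ?_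
    exact measurableSet_le (Bp_vol_meas j C _ U (2 ^ m) (m / N0) (q1 m) (q2 m) i) measurable_const

theorem stageNp (j A U C N0 : ℕ) (hA : 1 ≤ A) (hC : C = A * U) (hU : 2 ≤ U) (hN : 1 ≤ N0) (q1 q2 : ℕ → ℕ)
    (hq : QQ q1 q2) (i : ℕ) : ∀ᵐ θ : Fin (j + 3 + i) → ℝ, STp j A U C N0 q1 q2 i θ := by
  induction i with
  | zero =>
    have h1 := stage0p j A U C N0 hA hC hU hN q1 q2
    rw [ae_restrict_iff' (QB_meas _ _)] at h1
    filter_upwards [h1] with θ hθ hb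
    have h2 : θ ∈ QB (j + 3) (A : ℝ) := by
      rw [mem_QB]
      intro l
      rw [abs_le]
      have h3 := hb l
      have h4 : 0 ≤ 1 / (A : ℝ) := by positivity
      constructor
      · linarith [h3.1, h3.2]
      · exact h3.2
    filter_upwards [hθ h2] with m hm
    exact hm fun l => (hb l).1
  | succ i ih =>
    have hmp := volume_preserving_piFinSuccAbove (fun _ : Fin (j + 3 + i + 1) => ℝ) 0
    have hST := STp_meas j A U C N0 q1 q2 (i + 1)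
    have hNm : MeasurableSet ({θ : Fin (j + 3 + i + 1) → ℝ | STp j A U C N0 q1 q2 (i + 1) θ}ᶜ) := hST.compl
    rw [ae_iff]
    have h0 : {a : Fin (j + 3 + (i + 1)) → ℝ | ¬STp j A U C N0 q1 q2 (i + 1) a} =
        {θ : Fin (j + 3 + i + 1) → ℝ | STp j A U C N0 q1 q2 (i + 1) θ}ᶜ := rfl
    rw [h0]
    have hmps := hmp.symm
    rw [← hmps.measure_preimage hNm.nullMeasurableSet, Measure.volume_eq_prod,
      Measure.prod_apply_symm (hmps.measurable hNm)]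
    rw [lintegral_eq_zero_of_ae_eq_zero]
    filter_upwards [ih] with θ' hθ'
    rw [Pi.zero_apply]
    have key : ∀ᵐ φ : ℝ, STp j A U C N0 q1 q2 (i + 1) (Fin.cons φ θ' : Fin (j + 3 + i + 1) → ℝ) := by
      by_cases hb : ∀ l, 1 / (A : ℝ) ≤ θ' l ∧ θ' l ≤ A
      · have h1 := step1p j N0 i hN q1 q2 hq
          (fun m => Bp j C ((j + 2) * A * 2 ^ (j + 2) + A) U (2 ^ m) (m / N0) (q1 m) (q2 m) i θ')
          (fun m => Bp_meas _ _ _ _ _ _ _ _ _ _) (hθ' hb)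
        filter_upwards [h1] with φ hφ _
        filter_upwards [hφ] with m hm
        exact hm
      · apply Eventually.of_forall
        intro φ h1
        exact absurd (fun l => by
          have := h1 (Fin.succ l)
          rwa [Fin.cons_succ] at this) hb
    rw [ae_iff] at key
    refine measure_mono_null ?_ key
    intro φ hφ
    have h2 : (MeasurableEquiv.piFinSuccAbove (fun _ : Fin (j + 3 + i + 1) => ℝ) 0).symm (φ, θ') =
        (Fin.cons φ θ' : Fin (j + 3 + i + 1) → ℝ) := by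
      have h3 : (MeasurableEquiv.piFinSuccAbove (fun _ : Fin (j + 3 + i + 1) => ℝ) 0).symm (φ, θ') =
        Fin.insertNth (α := fun _ => ℝ) 0 φ θ' := rfl
      rw [h3, Fin.insertNth_zero']
    simp only [Set.mem_preimage, Set.mem_compl_iff, Set.mem_ofPred_eq] at hφ ⊢
    rw [h2] at hφ
    exact hφ

theorem good_p (j C L U P h A q1 q2 i : ℕ) (hP : 1 ≤ P) (hq1 : q1.Prime) (hq2 : q2.Prime) (hu1 : q1 ≤ 8 * P)
    (hu2 : q2 ≤ 8 * P) (θ : Fin (j + 3 + i) → ℝ) (h2 : ∀ l, 0 ≤ θ l ∧ θ l ≤ (A : ℝ)) (τ : ℝ)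
    (h3 : ((L : ℝ) + i * (A * 8 ^ (j + 2))) * (P : ℝ) ^ (j + 2) ≤ τ) (h4 : τ ≤ (U : ℝ) * (P : ℝ) ^ (j + 2))
    (hτ : τ ∉ Bp j C L U P h q1 q2 i θ) :
    ∃ x : Fin (j + 3 + i) → ℕ, (∀ l, 1 ≤ x l) ∧ (∀ l, l.val ≠ i → (x l).Prime) ∧
      |∑ l, θ l * (x l : ℝ) ^ (j + 2) - τ| < 1 / 2 ^ h := by
  induction i generalizing τ with
  | zero =>
    have h5 : ¬((L : ℝ) * (P : ℝ) ^ (j + 2) ≤ τ ∧ τ ≤ (U : ℝ) * (P : ℝ) ^ (j + 2) ∧
      ∀ x ∈ BP (j + 3) P C, 1 / (2 : ℝ) ^ h ≤ |F j (j + 3) θ x - τ|) := hτ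
    push Not at h5
    have h6 : (L : ℝ) * (P : ℝ) ^ (j + 2) ≤ τ := by
      simpa using h3
    obtain ⟨x, hx, hx'⟩ := h5 h6 h4
    have hxX : ∀ l, x l ∈ XP (j + 3) P C l := by
      unfold BP at hx
      rw [Fintype.mem_piFinset] at hx
      exact hx
    have hlow : ∀ l, (P : ℤ) ≤ x l := by
      intro l
      have h8 := XP_sub _ _ _ _ (hxX l)
      unfold XX at h8
      exact (Finset.mem_Icc.mp h8).1
    refine ⟨fun l => (x l).toNat, fun l => ?_, fun l hl => ?_, ?_⟩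
    · have h9 := hlow l
      have : (1 : ℤ) ≤ x l := by omega
      show 1 ≤ (x l).toNat
      omega
    · have h8 := hxX l
      unfold XP at h8
      rw [if_neg hl] at h8
      unfold PR at h8
      exact (Finset.mem_filter.mp h8).2
    have h7 : ∀ l, (((x l).toNat : ℕ) : ℝ) = (x l : ℝ) := by
      intro l
      have h9 := hlow l
      have h10 : (((x l).toNat : ℕ) : ℤ) = x l := Int.toNat_of_nonneg (by omega)
      exact_mod_cast h10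
    have h11 : ∑ l, θ l * (((x l).toNat : ℕ) : ℝ) ^ (j + 2) = F j (j + 3) θ x := by
      unfold F
      exact Finset.sum_congr rfl fun l _ => by rw [h7]
    rw [h11]
    exact hx'
  | succ i ih =>
    have h5 : ¬(τ - θ 0 * (q1 : ℝ) ^ (j + 2) ∈ Bp j C L U P h q1 q2 i (Fin.tail θ) ∧
        τ - θ 0 * (q2 : ℝ) ^ (j + 2) ∈ Bp j C L U P h q1 q2 i (Fin.tail θ)) := hτ
    have hP' : (1 : ℝ) ≤ P := by exact_mod_cast hP
    have h6 : ∃ Y : ℕ, Y.Prime ∧ Y ≤ 8 * P ∧ τ - θ 0 * (Y : ℝ) ^ (j + 2) ∉ Bp j C L U P h q1 q2 i (Fin.tail θ) := by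
      by_cases h7 : τ - θ 0 * (q1 : ℝ) ^ (j + 2) ∈ Bp j C L U P h q1 q2 i (Fin.tail θ)
      · exact ⟨q2, hq2, hu2, fun h9 => h5 ⟨h7, h9⟩⟩
      · exact ⟨q1, hq1, hu1, h7⟩
    obtain ⟨Y, hYp, hYu, hY'⟩ := h6
    have hYu' : (Y : ℝ) ≤ 8 * P := by exact_mod_cast hYu
    have hY1 : (Y : ℝ) ^ (j + 2) ≤ 8 ^ (j + 2) * (P : ℝ) ^ (j + 2) := by
      rw [← mul_pow]
      exact pow_le_pow_left₀ (by positivity) hYu' _
    have h7 : θ 0 * (Y : ℝ) ^ (j + 2) ≤ A * (8 ^ (j + 2) * (P : ℝ) ^ (j + 2)) :=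
      mul_le_mul (h2 0).2 hY1 (by positivity) (by positivity)
    have h8 : 0 ≤ θ 0 * (Y : ℝ) ^ (j + 2) := mul_nonneg (h2 0).1 (by positivity)
    obtain ⟨x, hx1, hxp, hx⟩ := ih (Fin.tail θ) (fun l => h2 l.succ) (τ - θ 0 * (Y : ℝ) ^ (j + 2)) (by
      push_cast at h3
      have h9 : ((L : ℝ) + ((i : ℝ) + 1) * (A * 8 ^ (j + 2))) * (P : ℝ) ^ (j + 2) =
        ((L : ℝ) + i * (A * 8 ^ (j + 2))) * (P : ℝ) ^ (j + 2) + A * (8 ^ (j + 2) * (P : ℝ) ^ (j + 2)) := by ring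
      rw [h9] at h3
      linarith) (by linarith) hY'
    refine ⟨(Fin.cons Y x : Fin (j + 3 + i + 1) → ℕ), ?_, ?_, ?_⟩
    · intro l
      refine Fin.cases ?_ (fun l' => ?_) l
      · rw [Fin.cons_zero]
        exact hYp.one_lt.le
      · rw [Fin.cons_succ]
        exact hx1 l'
    · intro l
      refine Fin.cases ?_ (fun l' => ?_) l
      · intro _
        rw [Fin.cons_zero]
        exact hYp
      · intro hl
        rw [Fin.cons_succ]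
        apply hxp l'
        intro h9
        apply hl
        rw [Fin.val_succ, h9]
    have h9 : ∑ l : Fin (j + 3 + (i + 1)), θ l * (((Fin.cons Y x : Fin (j + 3 + i + 1) → ℕ) l : ℕ) : ℝ) ^ (j + 2) =
        θ 0 * (Y : ℝ) ^ (j + 2) + ∑ l, Fin.tail θ l * (x l : ℝ) ^ (j + 2) := by
      have h10 := Fin.sum_univ_succ (n := j + 3 + i)
        (fun l : Fin (j + 3 + i + 1) => θ l * (((Fin.cons Y x : Fin (j + 3 + i + 1) → ℕ) l : ℕ) : ℝ) ^ (j + 2))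
      simp only [Fin.cons_zero, Fin.cons_succ] at h10
      exact h10
    rw [h9]
    have h10 : θ 0 * (Y : ℝ) ^ (j + 2) + ∑ l, Fin.tail θ l * (x l : ℝ) ^ (j + 2) - τ =
      ∑ l, Fin.tail θ l * (x l : ℝ) ^ (j + 2) - (τ - θ 0 * (Y : ℝ) ^ (j + 2)) := by ring
    rw [h10]
    exact hx

/-- one scale -/
theorem scale_p (j A t m : ℕ) (hA : 1 ≤ A) (ht : j + 2 < 2 ^ t) (L' U C : ℕ) (q1 q2 : ℕ → ℕ) (hq : QQ q1 q2)
    (hL' : L' = (j + 2) * A * 2 ^ (j + 2) + A + t * (A * 8 ^ (j + 2))) (hU : U = (L' + 1) * 2 ^ (j + 2) + 2)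
    (θ : Fin (j + 3 + t) → ℝ) (h2 : ∀ l, 1 / (A : ℝ) ≤ θ l ∧ θ l ≤ A)
    (hb : volume (Bp j C ((j + 2) * A * 2 ^ (j + 2) + A) U (2 ^ m) (m / (6 * (j + 3))) (q1 m) (q2 m) t θ) ≤
      ENNReal.ofReal (lam j (6 * (j + 3)) t m)) (τ : ℝ) (h3 : ((L' : ℝ) + 1) * ((2 : ℝ) ^ m) ^ (j + 2) ≤ τ)
    (h4 : τ ≤ ((L' : ℝ) + 1) * 2 ^ (j + 2) * ((2 : ℝ) ^ m) ^ (j + 2)) :
    ∃ x : Fin (j + 3 + t) → ℕ, (∀ l, 1 ≤ x l) ∧ (∀ l, l.val ≠ t → (x l).Prime) ∧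
      |∑ l, θ l * (x l : ℝ) ^ (j + 2) - τ| < 2 / 2 ^ (m / (6 * (j + 3))) := by
  set h := m / (6 * (j + 3)) with hh
  by_contra hcon
  push Not at hcon
  have hA' : (1 : ℝ) ≤ A := by exact_mod_cast hA
  have hP1 : (1 : ℝ) ≤ ((2 : ℝ) ^ m) ^ (j + 2) := one_le_pow₀ (one_le_pow₀ (by norm_num))
  have h2h : (0 : ℝ) < 2 ^ h := by positivity
  have h2h1 : (1 : ℝ) / 2 ^ h ≤ 1 := by
    rw [div_le_one h2h]
    exact one_le_pow₀ (by norm_num)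
  have hPc : ((2 ^ m : ℕ) : ℝ) = 2 ^ m := by push_cast; ring
  have hsub : Set.Icc (τ - 1 / 2 ^ h) (τ + 1 / 2 ^ h) ⊆
      Bp j C ((j + 2) * A * 2 ^ (j + 2) + A) U (2 ^ m) h (q1 m) (q2 m) t θ := by
    intro τ' hτ'
    by_contra hn
    have hlow : ((((j + 2) * A * 2 ^ (j + 2) + A : ℕ) : ℝ) + t * (A * 8 ^ (j + 2))) * ((2 ^ m : ℕ) : ℝ) ^ (j + 2) ≤ τ' := by
      have h5 : ((((j + 2) * A * 2 ^ (j + 2) + A : ℕ) : ℝ) + t * (A * 8 ^ (j + 2))) = (L' : ℝ) := by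
        rw [hL']
        push_cast
        ring
      rw [h5, hPc]
      have h6 : ((L' : ℝ) + 1) * ((2 : ℝ) ^ m) ^ (j + 2) = L' * ((2 : ℝ) ^ m) ^ (j + 2) + ((2 : ℝ) ^ m) ^ (j + 2) := by ring
      rw [h6] at h3
      linarith [hτ'.1]
    have hup : τ' ≤ (U : ℝ) * ((2 ^ m : ℕ) : ℝ) ^ (j + 2) := by
      rw [hPc, hU]
      push_cast
      have h6 : (((L' : ℝ) + 1) * 2 ^ (j + 2) + 2) * ((2 : ℝ) ^ m) ^ (j + 2) =
        ((L' : ℝ) + 1) * 2 ^ (j + 2) * ((2 : ℝ) ^ m) ^ (j + 2) + 2 * ((2 : ℝ) ^ m) ^ (j + 2) := by ring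
      rw [h6]
      linarith [hτ'.2]
    obtain ⟨x, hx1, hxp, hx⟩ := good_p j C ((j + 2) * A * 2 ^ (j + 2) + A) U (2 ^ m) h A (q1 m) (q2 m) t
      Nat.one_le_two_pow (hq.p1 m) (hq.p2 m) (by have := hq.u1 m; omega) (hq.u2 m) θ
      (fun l => ⟨le_trans (by positivity) (h2 l).1, (h2 l).2⟩) τ' hlow hup hn
    have h7 := hcon x hx1 hxp
    have h8 : |τ' - τ| ≤ 1 / 2 ^ h := by
      rw [abs_le]
      constructor <;> linarith [hτ'.1, hτ'.2]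
    have h9 : |∑ l, θ l * (x l : ℝ) ^ (j + 2) - τ| ≤ |∑ l, θ l * (x l : ℝ) ^ (j + 2) - τ'| + |τ' - τ| :=
      abs_sub_le _ _ _
    have h11 : (2 : ℝ) / 2 ^ h = 1 / 2 ^ h + 1 / 2 ^ h := by ring
    linarith
  have h5 := measure_mono (μ := volume) hsub
  rw [Real.volume_Icc] at h5
  have h6 := (h5.trans hb).trans (ENNReal.ofReal_le_ofReal (lam_le j t m ht))
  rw [ENNReal.ofReal_le_ofReal_iff (by positivity)] at h6
  have h7 : (0 : ℝ) < 1 / 2 ^ h := by positivity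
  linarith

theorem main_p (j t : ℕ) (ht : j + 2 < 2 ^ t) :
    ∀ᵐ θ : Fin (j + 3 + t) → ℝ, (∀ l, 0 < θ l) → ∃ T : ℝ, ∀ τ : ℝ, T ≤ τ →
      ∃ x : Fin (j + 3 + t) → ℕ, ((∀ l, 1 ≤ x l) ∧ (∀ l, l.val ≠ t → (x l).Prime)) ∧
        |∑ l, θ l * (x l : ℝ) ^ (j + 2) - τ| < τ ^ (-(1 / (8 * ((j : ℝ) + 2) * (j + 3)))) := by
  obtain ⟨q1, q2, hq⟩ := QQ_exists
  have hall : ∀ᵐ θ : Fin (j + 3 + t) → ℝ, ∀ A : ℕ, 1 ≤ A →
      STp j A (((j + 2) * A * 2 ^ (j + 2) + A + t * (A * 8 ^ (j + 2)) + 1) * 2 ^ (j + 2) + 2)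
        (A * (((j + 2) * A * 2 ^ (j + 2) + A + t * (A * 8 ^ (j + 2)) + 1) * 2 ^ (j + 2) + 2)) (6 * (j + 3)) q1 q2 t θ := by
    rw [ae_all_iff]
    intro A
    by_cases hA : 1 ≤ A
    · filter_upwards [stageNp j A (((j + 2) * A * 2 ^ (j + 2) + A + t * (A * 8 ^ (j + 2)) + 1) * 2 ^ (j + 2) + 2)
        (A * (((j + 2) * A * 2 ^ (j + 2) + A + t * (A * 8 ^ (j + 2)) + 1) * 2 ^ (j + 2) + 2)) (6 * (j + 3)) hA rfl
        (by omega) (by omega) q1 q2 hq t] with θ hθ _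
      exact hθ
    · exact Eventually.of_forall fun θ h => absurd h hA
  filter_upwards [hall] with θ hθ hpos
  -- choose A
  obtain ⟨A, hA1⟩ := exists_nat_ge (1 + ∑ l, (θ l + 1 / θ l))
  have hsum0 : ∀ l, 0 ≤ θ l + 1 / θ l := fun l => by
    have := hpos l
    positivity
  have hle : ∀ l, θ l + 1 / θ l ≤ ∑ l, (θ l + 1 / θ l) := fun l =>
    Finset.single_le_sum (f := fun l => θ l + 1 / θ l) (fun i _ => hsum0 i) (Finset.mem_univ l)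
  have hsum1 : 0 ≤ ∑ l, (θ l + 1 / θ l) := Finset.sum_nonneg fun l _ => hsum0 l
  have hA : 1 ≤ A := by
    have : (1 : ℝ) ≤ A := by linarith
    exact_mod_cast this
  have hA' : (1 : ℝ) ≤ A := by exact_mod_cast hA
  have hb : ∀ l, 1 / (A : ℝ) ≤ θ l ∧ θ l ≤ A := by
    intro l
    have h1 := hle l
    have h2 := hpos l
    have h3 : 0 < 1 / θ l := by positivity
    constructor
    · rw [div_le_iff₀ (by linarith)]
      have h4 : 1 / θ l ≤ A := by linarith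
      rw [div_le_iff₀ h2] at h4
      linarith
    · linarith
  have h1 := hθ A hA hb
  set L' := (j + 2) * A * 2 ^ (j + 2) + A + t * (A * 8 ^ (j + 2)) with hL'
  obtain ⟨m1, hm1⟩ := eventually_atTop.mp h1
  obtain ⟨m0, hm0⟩ := final_exp j L'
  refine ⟨((L' : ℝ) + 1) * ((2 : ℝ) ^ (j + 2)) ^ (m0 + m1), fun τ hτ => ?_⟩
  have hL1 : (0 : ℝ) < (L' : ℝ) + 1 := by positivity
  have hτ1 : ((2 : ℝ) ^ (j + 2)) ^ (m0 + m1) ≤ τ / ((L' : ℝ) + 1) := by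
    rw [le_div_iff₀ hL1]
    linarith
  have h2k : (1 : ℝ) < 2 ^ (j + 2) := one_lt_pow₀ (by norm_num) (by omega)
  have hone : (1 : ℝ) ≤ τ / ((L' : ℝ) + 1) := le_trans (one_le_pow₀ h2k.le) hτ1
  obtain ⟨m, hma, hmb⟩ := exists_nat_pow_near hone h2k
  have hmm : m0 + m1 ≤ m := by
    by_contra hlt
    push Not at hlt
    have h5 : ((2 : ℝ) ^ (j + 2)) ^ (m + 1) ≤ ((2 : ℝ) ^ (j + 2)) ^ (m0 + m1) := pow_le_pow_right₀ h2k.le hlt
    linarith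
  rw [le_div_iff₀ hL1] at hma
  rw [div_lt_iff₀ hL1] at hmb
  have hcomm : ((2 : ℝ) ^ (j + 2)) ^ m = ((2 : ℝ) ^ m) ^ (j + 2) := by rw [← pow_mul, ← pow_mul, mul_comm]
  have h3 : ((L' : ℝ) + 1) * ((2 : ℝ) ^ m) ^ (j + 2) ≤ τ := by
    rw [← hcomm]
    linarith
  have h4 : τ ≤ ((L' : ℝ) + 1) * 2 ^ (j + 2) * ((2 : ℝ) ^ m) ^ (j + 2) := by
    rw [← hcomm]
    rw [pow_succ] at hmb
    linarith
  have hτ0 : 0 < τ := lt_of_lt_of_le (by positivity) h3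
  obtain ⟨x, hx1, hxp, hx⟩ := scale_p j A t m hA ht L' ((L' + 1) * 2 ^ (j + 2) + 2)
    (A * ((L' + 1) * 2 ^ (j + 2) + 2)) q1 q2 hq hL' rfl θ hb (hm1 m (by omega)) τ h3 h4
  exact ⟨x, ⟨hx1, hxp⟩, hx.trans_le (hm0 m (by omega) τ hτ0 h4)⟩

end Pool.Agent.Y867.WP
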